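import Mathlib
import Pool.Agent.SSM.Dsys

/-!
# Chain conditions and graph posets
-/

namespace Pool.Agent.Helper8.KP

open Set

/-- two elements of a poset are compatible if they have a common lower bound -/
def Compat {P : Type} [PartialOrder P] (p q : P) : Prop := ∃ r, r ≤ p ∧ r ≤ q

/-- a poset is ccc if every antichain (set of pairwise incompatible elements) is countable -/
def CCC (P : Type) [PartialOrder P] : Prop :=
  ∀ A : Set P, (∀ p ∈ A, ∀ q ∈ A, p ≠ q → ¬ Compat p q) → A.Countable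

/-- property K: every uncountable subset contains an uncountable linked subset -/
def PropertyK (P : Type) [PartialOrder P] : Prop :=
  ∀ A : Set P, ¬ A.Countable → ∃ B ⊆ A, ¬ B.Countable ∧ ∀ p ∈ B, ∀ q ∈ B, Compat p q

/-- the statement (∗): every ccc poset has property K -/
def Star : Prop := ∀ (P : Type) [PartialOrder P], CCC P → PropertyK P

theorem pigeon {I J : Type*} [Countable J] {A : Set I} (hA : ¬ A.Countable) (g : I → J) :
    ∃ j, ¬ {i ∈ A | g i = j}.Countable := by
  by_contra h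
  push Not at h
  apply hA
  refine (Set.countable_iUnion h).mono ?_
  intro i hi
  exact Set.mem_iUnion.2 ⟨g i, hi, rfl⟩

/-- the finite cliques of a relation -/
structure Cliq {Ω : Type} (R : Ω → Ω → Prop) where
  /-- the finite set -/
  s : Finset Ω
  /-- it is a clique -/
  h : ∀ a ∈ s, ∀ b ∈ s, a ≠ b → R a b

theorem Cliq.ext' {Ω : Type} {R : Ω → Ω → Prop} {p q : Cliq R} (h : p.s = q.s) : p = q := by
  cases p; cases q; simp only at h; subst h; rfl

instance {Ω : Type} (R : Ω → Ω → Prop) : PartialOrder (Cliq R) where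
  le p q := q.s ⊆ p.s
  le_refl p := Finset.Subset.refl _
  le_trans p q r h1 h2 := Finset.Subset.trans h2 h1
  le_antisymm p q h1 h2 := Cliq.ext' (Finset.Subset.antisymm h2 h1)

theorem cliq_le {Ω : Type} {R : Ω → Ω → Prop} {p q : Cliq R} : p ≤ q ↔ q.s ⊆ p.s := Iff.rfl

/-- if every ccc poset has property K then a relation on an uncountable set, whose graph poset is ccc,
has an uncountable clique -/
theorem exists_clique (H : Star) {Ω : Type} [Uncountable Ω] (R : Ω → Ω → Prop)
    (hccc : ∀ (𝒜 : Set (Finset Ω)) (m : ℕ), ¬ 𝒜.Countable → (∀ F ∈ 𝒜, F.Nonempty) →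
      (∀ F ∈ 𝒜, F.card = m) → (∀ F ∈ 𝒜, ∀ G ∈ 𝒜, F ≠ G → Disjoint F G) →
      (∀ F ∈ 𝒜, ∀ a ∈ F, ∀ b ∈ F, a ≠ b → R a b) →
      ∃ F ∈ 𝒜, ∃ G ∈ 𝒜, F ≠ G ∧ ∀ a ∈ F, ∀ b ∈ G, R a b ∧ R b a) :
    ∃ X : Set Ω, ¬ X.Countable ∧ ∀ a ∈ X, ∀ b ∈ X, a ≠ b → R a b := by
  classical
  have hC : CCC (Cliq R) := by
    intro A hA
    by_contra hAc
    obtain ⟨S, hSA, hSc, ρ, hρ⟩ := SSM.exists_dsys hAc (fun p : Cliq R => p.s)
    have hρS : ∀ p ∈ S, ρ ⊆ p.s := by
      intro p hp
      obtain ⟨q, hq, hqp⟩ : ∃ q ∈ S, q ≠ p := by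
        by_contra hcon
        push Not at hcon
        exact hSc ((Set.countable_singleton p).mono (fun q hq => hcon q hq))
      rw [← hρ q hq p hp hqp]
      exact Finset.inter_subset_right
    have h1 : ¬ {p ∈ S | (p.s \ ρ).Nonempty}.Countable := by
      intro hcon
      apply hSc
      have h2 : {p : Cliq R | p.s ⊆ ρ}.Countable := by
        have h3 : ((fun p : Cliq R => p.s) '' {p : Cliq R | p.s ⊆ ρ}).Countable :=
          (ρ.powerset.countable_toSet).mono (by
            rintro _ ⟨p, hp, rfl⟩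
            simpa using hp)
        exact Set.MapsTo.countable_of_injOn (Set.mapsTo_image _ _)
          (fun p _ q _ h => Cliq.ext' h) h3
      refine (hcon.union h2).mono ?_
      intro p hp
      by_cases hpe : (p.s \ ρ).Nonempty
      · exact Or.inl ⟨hp, hpe⟩
      · right
        rw [Finset.not_nonempty_iff_eq_empty, Finset.sdiff_eq_empty_iff_subset] at hpe
        exact hpe
    obtain ⟨m, hm⟩ := pigeon h1 (fun p => (p.s \ ρ).card)
    set S2 := {i ∈ {p ∈ S | (p.s \ ρ).Nonempty} | (fun p => (p.s \ ρ).card) i = m} with hS2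
    have hdis : ∀ p ∈ S, ∀ q ∈ S, p ≠ q → Disjoint (p.s \ ρ) (q.s \ ρ) := by
      intro p hp q hq hpq
      rw [Finset.disjoint_left]
      intro x hx hx'
      rw [Finset.mem_sdiff] at hx hx'
      apply hx.2
      rw [← hρ p hp q hq hpq]
      exact Finset.mem_inter.2 ⟨hx.1, hx'.1⟩
    have hinj : Set.InjOn (fun p : Cliq R => p.s \ ρ) S2 := by
      intro p hp q hq hpq
      by_contra hne
      have h2 := hdis p hp.1.1 q hq.1.1 hne
      have hpq' : p.s \ ρ = q.s \ ρ := hpq
      rw [← hpq', disjoint_self] at h2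
      exact (Finset.nonempty_iff_ne_empty.1 hp.1.2) h2
    obtain ⟨F, hF, G, hG, hFG, hR⟩ := hccc ((fun p : Cliq R => p.s \ ρ) '' S2) m
      (by
        intro hcon
        exact hm (Set.MapsTo.countable_of_injOn (Set.mapsTo_image _ _) hinj hcon))
      (by
        rintro _ ⟨p, hp, rfl⟩
        exact hp.1.2)
      (by
        rintro _ ⟨p, hp, rfl⟩
        exact hp.2)
      (by
        rintro _ ⟨p, hp, rfl⟩ _ ⟨q, hq, rfl⟩ hpq
        exact hdis p hp.1.1 q hq.1.1 (fun h => hpq (by rw [h])))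
      (by
        rintro _ ⟨p, hp, rfl⟩ a ha b hb hab
        exact p.h a (Finset.mem_sdiff.1 ha).1 b (Finset.mem_sdiff.1 hb).1 hab)
    obtain ⟨p, hp, rfl⟩ := hF
    obtain ⟨q, hq, rfl⟩ := hG
    have hpq : p ≠ q := fun h => hFG (by rw [h])
    refine hA p (hSA hp.1.1) q (hSA hq.1.1) hpq ⟨⟨p.s ∪ q.s, ?_⟩, ?_, ?_⟩
    · have key : ∀ a ∈ p.s, ∀ b ∈ q.s, a ≠ b → R a b ∧ R b a := by
        intro a ha b hb hab
        by_cases haq : a ∈ q.s
        · exact ⟨q.h a haq b hb hab, q.h b hb a haq hab.symm⟩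
        by_cases hbp : b ∈ p.s
        · exact ⟨p.h a ha b hbp hab, p.h b hbp a ha hab.symm⟩
        refine hR a (Finset.mem_sdiff.2 ⟨ha, fun h => haq (hρS q hq.1.1 h)⟩) b
          (Finset.mem_sdiff.2 ⟨hb, fun h => hbp (hρS p hp.1.1 h)⟩)
      intro a ha b hb hab
      rcases Finset.mem_union.1 ha with ha | ha <;> rcases Finset.mem_union.1 hb with hb | hb
      · exact p.h a ha b hb hab
      · exact (key a ha b hb hab).1
      · exact (key b hb a ha hab.symm).2
      · exact q.h a ha b hb hab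
    · exact Finset.subset_union_left
    · exact Finset.subset_union_right
  obtain ⟨B, hBA, hBc, hB⟩ := H (Cliq R) hC
    (Set.range fun a : Ω => (⟨{a}, by
      intro x hx y hy hxy
      rw [Finset.mem_singleton] at hx hy
      exact absurd (hx.trans hy.symm) hxy⟩ : Cliq R)) (by
      intro hcon
      rw [← Set.image_univ] at hcon
      have h := Set.MapsTo.countable_of_injOn (Set.mapsTo_image _ _) (by
        intro a _ b _ hab
        have := congrArg Cliq.s hab
        simpa using this) hcon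
      exact Set.not_countable_univ h)
  refine ⟨{a | ∃ p ∈ B, p.s = {a}}, ?_, ?_⟩
  · intro hcon
    apply hBc
    have h1 : B ⊆ ⋃ a ∈ {a | ∃ p ∈ B, p.s = {a}}, {p : Cliq R | p.s = {a}} := by
      intro p hp
      obtain ⟨a, ha⟩ := hBA hp
      have ha' : p.s = {a} := by rw [← ha]
      simp only [Set.mem_iUnion]
      exact ⟨a, ⟨p, hp, ha'⟩, ha'⟩
    refine (hcon.biUnion fun a _ => ?_).mono h1
    refine Set.Subsingleton.countable ?_
    intro p hp q hq
    exact Cliq.ext' (hp.trans hq.symm)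
  · rintro a ⟨p, hp, hpa⟩ b ⟨q, hq, hqb⟩ hab
    obtain ⟨r, hrp, hrq⟩ := hB p hp q hq
    rw [cliq_le] at hrp hrq
    exact r.h a (hrp (by rw [hpa]; simp)) b (hrq (by rw [hqb]; simp)) hab

end Pool.Agent.Helper8.KP
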