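import Mathlib
import Pool.Agent.Helper8.KP.Base

/-!
# Property K and eventual domination
-/

namespace Pool.Agent.Helper8.KP

open Set

theorem exists_above {Ω : Type} [LinearOrder Ω] (hc : ∀ a : Ω, (Set.Iio a).Countable)
    {𝒜 : Set (Finset Ω)} (hA : ¬ 𝒜.Countable) (hdis : ∀ F ∈ 𝒜, ∀ G ∈ 𝒜, F ≠ G → Disjoint F G) (ξ : Ω) :
    ∃ F ∈ 𝒜, ∀ δ ∈ F, ξ < δ := by
  by_contra hcon2
  push Not at hcon2
  apply hA
  have h1 : 𝒜 ⊆ ⋃ a ∈ Set.Iic ξ, {F ∈ 𝒜 | a ∈ F} := by
    intro F hF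
    obtain ⟨a, ha, haξ⟩ := hcon2 F hF
    simp only [Set.mem_iUnion]
    exact ⟨a, haξ, hF, ha⟩
  have h2 : (Set.Iic ξ).Countable := by
    rw [← Set.Iio_insert]
    exact (hc ξ).insert ξ
  refine (h2.biUnion fun a _ => ?_).mono h1
  refine Set.Subsingleton.countable ?_
  intro F hF G' hG'
  by_contra hFG
  exact Finset.disjoint_left.1 (hdis F hF.1 G' hG'.1 hFG) hF.2 hG'.2

theorem exists_gt_of_countable {Ω : Type} [LinearOrder Ω] [Uncountable Ω]
    (hc : ∀ a : Ω, (Set.Iio a).Countable) {D : Set Ω} (hD : D.Countable) : ∃ γ, ∀ a ∈ D, a < γ := by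
  by_contra hcon
  push Not at hcon
  have h1 : (Set.univ : Set Ω) ⊆ ⋃ a ∈ D, Set.Iic a := by
    intro γ _
    obtain ⟨a, ha, hγ⟩ := hcon γ
    simp only [Set.mem_iUnion]
    exact ⟨a, ha, hγ⟩
  refine Set.not_countable_univ ((hD.biUnion fun a _ => ?_).mono h1)
  rw [← Set.Iio_insert]
  exact (hc a).insert a

theorem dom_countable {Ω : Type} {S : Set Ω} (hS : S.Countable) (f : Ω → ℕ → ℕ) (f₀ : ℕ → ℕ) :
    ∃ g : ℕ → ℕ, Monotone g ∧ (∀ n, f₀ n ≤ g n) ∧ ∀ a ∈ S, ∃ N, ∀ n, N ≤ n → f a n ≤ g n := by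
  classical
  obtain ⟨e, he⟩ := Set.countable_iff_exists_injOn.1 hS
  have hfin : ∀ k, {a ∈ S | e a ≤ k}.Finite := by
    intro k
    refine Set.Finite.of_finite_image (f := e) ((Set.finite_Iic k).subset ?_) (he.mono fun a ha => ha.1)
    rintro _ ⟨a, ha, rfl⟩
    exact ha.2
  refine ⟨fun n => (Finset.range (n + 1)).sup fun k => f₀ k + (hfin k).toFinset.sup fun a => f a k, ?_, ?_, ?_⟩
  · intro n m hnm
    exact Finset.sup_mono (Finset.range_mono (by omega))
  · intro n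
    have h1 : f₀ n + ((hfin n).toFinset.sup fun a => f a n) ≤
        (Finset.range (n + 1)).sup fun k => f₀ k + (hfin k).toFinset.sup fun a => f a k :=
      Finset.le_sup (f := fun k => f₀ k + (hfin k).toFinset.sup fun a => f a k)
        (Finset.mem_range.2 (Nat.lt_succ_self n))
    exact (Nat.le_add_right _ _).trans h1
  · intro a ha
    refine ⟨e a, fun n hn => ?_⟩
    have h1 : f₀ n + ((hfin n).toFinset.sup fun a => f a n) ≤
        (Finset.range (n + 1)).sup fun k => f₀ k + (hfin k).toFinset.sup fun a => f a k :=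
      Finset.le_sup (f := fun k => f₀ k + (hfin k).toFinset.sup fun a => f a k)
        (Finset.mem_range.2 (Nat.lt_succ_self n))
    have h2 : f a n ≤ (hfin n).toFinset.sup fun a => f a n :=
      Finset.le_sup (f := fun a => f a n) ((hfin n).mem_toFinset.2 ⟨ha, hn⟩)
    exact h2.trans ((Nat.le_add_left _ _).trans h1)

/-- a family of functions is dominated pointwise by an eventually increasing family of monotone functions -/
theorem exists_scale {Ω : Type} [LinearOrder Ω] [WellFoundedLT Ω] (hc : ∀ a : Ω, (Set.Iio a).Countable)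
    (f₀ : Ω → ℕ → ℕ) : ∃ f : Ω → ℕ → ℕ, (∀ a, Monotone (f a)) ∧ (∀ a n, f₀ a n ≤ f a n) ∧
      ∀ a b, a < b → ∃ N, ∀ n, N ≤ n → f a n ≤ f b n := by
  classical
  have hstep : ∀ (b : Ω) (prev : ∀ a, a < b → ℕ → ℕ), ∃ g : ℕ → ℕ, Monotone g ∧ (∀ n, f₀ b n ≤ g n) ∧
      ∀ a (h : a < b), ∃ N, ∀ n, N ≤ n → prev a h n ≤ g n := by
    intro b prev
    obtain ⟨g, h1, h2, h3⟩ := dom_countable (hc b) (fun a n => if h : a < b then prev a h n else 0) (f₀ b)
    refine ⟨g, h1, h2, fun a h => ?_⟩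
    obtain ⟨N, hN⟩ := h3 a h
    refine ⟨N, fun n hn => ?_⟩
    have := hN n hn
    simpa [h] using this
  choose st hst1 hst2 hst3 using hstep
  let f : Ω → ℕ → ℕ := (wellFounded_lt (α := Ω)).fix (C := fun _ => ℕ → ℕ) fun b prev => st b prev
  have hf : ∀ b, f b = st b (fun a _ => f a) := fun b => WellFounded.fix_eq _ _ b
  refine ⟨f, fun a => ?_, fun a n => ?_, fun a b hab => ?_⟩
  · rw [hf]; exact hst1 _ _
  · rw [hf]; exact hst2 _ _ n
  · rw [hf b]; exact hst3 b (fun a _ => f a) a hab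

/-- Todorcevic: if every ccc poset has property K then `ℵ₁` functions are dominated by one function -/
theorem exists_dom (H : Star) {Ω : Type} [LinearOrder Ω] [WellFoundedLT Ω] [Uncountable Ω]
    (hc : ∀ a : Ω, (Set.Iio a).Countable) (f₀ : Ω → ℕ → ℕ) :
    ∃ g : ℕ → ℕ, ∀ a, ∃ N, ∀ n, N ≤ n → f₀ a n ≤ g n := by
  classical
  obtain ⟨f, hmono, hge, hinc⟩ := exists_scale hc f₀
  by_contra hcon0
  have hcon : ¬ ∃ g : ℕ → ℕ, ∀ a, ∃ N, ∀ n, N ≤ n → f a n ≤ g n := by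
    rintro ⟨g, hg⟩
    apply hcon0
    refine ⟨g, fun a => ?_⟩
    obtain ⟨N, hN⟩ := hg a
    exact ⟨N, fun n hn => (hge a n).trans (hN n hn)⟩
  have hub : ∀ A : Set Ω, ¬ A.Countable → ∀ g : ℕ → ℕ, ¬ ∀ a ∈ A, ∃ N, ∀ n, N ≤ n → f a n ≤ g n := by
    intro A hA g hg
    apply hcon
    refine ⟨g, fun a => ?_⟩
    obtain ⟨b, hb, hab⟩ : ∃ b ∈ A, a < b := by
      by_contra h
      push Not at h
      apply hA
      have h2 : (Set.Iic a).Countable := by
        rw [← Set.Iio_insert]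
        exact (hc a).insert a
      exact h2.mono fun b hb => h b hb
    obtain ⟨N1, hN1⟩ := hinc a b hab
    obtain ⟨N2, hN2⟩ := hg b hb
    exact ⟨N1 + N2, fun n hn => (hN1 n (by omega)).trans (hN2 n (by omega))⟩
  obtain ⟨X, hXc, hX⟩ := exists_clique H
    (fun a b => (a < b ∧ ∃ k, f b k < f a k) ∨ (b < a ∧ ∃ k, f a k < f b k)) (by
    intro 𝒜 m hA hne hm hdis hcl
    -- a place where the minimum over F is unbounded
    obtain ⟨k, hk⟩ : ∃ k, ∀ N, ¬ {F ∈ 𝒜 | ∀ a ∈ F, N ≤ f a k}.Countable := by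
      by_contra h
      push Not at h
      choose g hg using h
      have h1 : ¬ (𝒜 \ ⋃ k, {F ∈ 𝒜 | ∀ a ∈ F, g k ≤ f a k}).Countable := by
        intro h1
        apply hA
        refine ((h1.union (Set.countable_iUnion hg))).mono ?_
        intro F hF
        by_cases hF2 : F ∈ ⋃ k, {F ∈ 𝒜 | ∀ a ∈ F, g k ≤ f a k}
        · exact Or.inr hF2
        · exact Or.inl ⟨hF, hF2⟩
      set 𝒜' := (𝒜 \ ⋃ k, {F ∈ 𝒜 | ∀ a ∈ F, g k ≤ f a k}) with h𝒜'
      have hmin : ∀ F : Finset Ω, ∃ a, F ∈ 𝒜 → a ∈ F ∧ ∀ b ∈ F, a ≤ b := by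
        intro F
        by_cases hF : F ∈ 𝒜
        · exact ⟨F.min' (hne F hF), fun _ => ⟨F.min'_mem _, fun b hb => F.min'_le b hb⟩⟩
        · obtain ⟨F0, hF0⟩ : ∃ F0, F0 ∈ 𝒜 := by
            by_contra h
            push Not at h
            exact hA ((Set.countable_empty).mono fun F hF => absurd hF (h F))
          obtain ⟨a, -⟩ := hne F0 hF0
          exact ⟨a, fun h => absurd h hF⟩
      choose mn hmn using hmin
      refine hub (mn '' 𝒜') ?_ g ?_
      · intro hcon2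
        apply h1
        refine Set.MapsTo.countable_of_injOn (Set.mapsTo_image mn 𝒜') ?_ hcon2
        intro F hF G hG hFG
        by_contra hne'
        exact Finset.disjoint_left.1 (hdis F hF.1 G hG.1 hne') (hmn F hF.1).1
          (by rw [hFG]; exact (hmn G hG.1).1)
      · rintro _ ⟨F, hF, rfl⟩
        have h2 : ∀ b : Ω, ∃ N, b ∈ F → ∀ n, N ≤ n → f (mn F) n ≤ f b n := by
          intro b
          by_cases hb : b ∈ F
          · rcases ((hmn F hF.1).2 b hb).eq_or_lt with h | h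
            · exact ⟨0, fun _ n _ => by rw [h]⟩
            · obtain ⟨N, hN⟩ := hinc _ _ h
              exact ⟨N, fun _ => hN⟩
          · exact ⟨0, fun h => absurd h hb⟩
        choose Nb hNb using h2
        refine ⟨F.sup Nb, fun n hn => ?_⟩
        have h3 : ¬ ∀ a ∈ F, g n ≤ f a n := by
          intro h3
          apply hF.2
          rw [Set.mem_iUnion]
          exact ⟨n, hF.1, h3⟩
        push Not at h3
        obtain ⟨b, hb, hbn⟩ := h3
        have h4 : Nb b ≤ F.sup Nb := Finset.le_sup hb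
        exact (hNb b hb n (by omega)).trans hbn.le
    obtain ⟨c, hcc⟩ := pigeon hA (fun F => F.sup fun a => f a k)
    obtain ⟨G, hG, hGN⟩ : ∃ G ∈ 𝒜, ∀ a ∈ G, c + 1 ≤ f a k := by
      by_contra h
      push Not at h
      apply hk (c + 1)
      refine (Set.countable_empty).mono ?_
      rintro F ⟨hF, hF2⟩
      obtain ⟨a, ha, ha2⟩ := h F hF
      exact absurd (hF2 a ha) (by omega)
    obtain ⟨F, hF, hFG⟩ := exists_above hc hcc (fun F hF G hG h => hdis F hF.1 G hG.1 h)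
      (G.max' (hne G hG))
    refine ⟨G, hG, F, hF.1, ?_, ?_⟩
    · rintro rfl
      obtain ⟨a, ha⟩ := hne G hG
      exact absurd (hFG a ha) (not_lt.2 (G.le_max' a ha))
    · intro a ha b hb
      have h1 : a < b := (G.le_max' a ha).trans_lt (hFG b hb)
      have h2 : f b k ≤ F.sup fun a => f a k := Finset.le_sup (f := fun a => f a k) hb
      have h3 : (F.sup fun a => f a k) = c := hF.2
      have h4 := hGN a ha
      exact ⟨Or.inl ⟨h1, k, by omega⟩, Or.inr ⟨h1, k, by omega⟩⟩)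
  -- no uncountable clique
  have hd : ∀ p : Σ n, Fin n → ℕ, ∃ a : Ω, (∃ b ∈ X, ∀ k : Fin p.1, f b k = p.2 k) →
      a ∈ X ∧ ∀ k : Fin p.1, f a k = p.2 k := by
    intro p
    by_cases h : ∃ b ∈ X, ∀ k : Fin p.1, f b k = p.2 k
    · obtain ⟨b, hb, hb2⟩ := h
      exact ⟨b, fun _ => ⟨hb, hb2⟩⟩
    · exact ⟨Classical.arbitrary Ω, fun h' => absurd h' h⟩
  choose d hd using hd
  obtain ⟨γ, hγ⟩ := exists_gt_of_countable hc (Set.countable_range d)
  have hA1 : ¬ {b ∈ X | γ < b}.Countable := by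
    intro h
    apply hXc
    have h2 : (Set.Iic γ).Countable := by
      rw [← Set.Iio_insert]
      exact (hc γ).insert γ
    refine (h.union h2).mono ?_
    intro b hb
    rcases lt_or_ge γ b with h3 | h3
    · exact Or.inl ⟨hb, h3⟩
    · exact Or.inr h3
  have hN : ∀ b : Ω, ∃ N, γ < b → ∀ n, N ≤ n → f γ n ≤ f b n := by
    intro b
    by_cases h : γ < b
    · obtain ⟨N, hN⟩ := hinc γ b h
      exact ⟨N, fun _ => hN⟩
    · exact ⟨0, fun h' => absurd h' h⟩
  choose Nγ hNγ using hN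
  obtain ⟨n₀, hn₀⟩ := pigeon hA1 Nγ
  set A2 := {i ∈ {b ∈ X | γ < b} | Nγ i = n₀} with hA2
  have hex : ∃ n, ∀ c, ∃ b ∈ A2, c < f b n := by
    by_contra h
    push Not at h
    choose g hg using h
    exact hub A2 hn₀ g fun a ha => ⟨0, fun n _ => hg n a ha⟩
  obtain ⟨n, hn1, hn2⟩ : ∃ n, (∀ c, ∃ b ∈ A2, c < f b n) ∧ ∀ k : Fin n, ∃ c, ∀ b ∈ A2, f b k ≤ c := by
    refine ⟨Nat.find hex, Nat.find_spec hex, fun k => ?_⟩
    have h := Nat.find_min hex k.2
    push Not at h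
    exact h
  choose bd hbd using hn2
  obtain ⟨t, ht⟩ : ∃ t : Fin n → ℕ, ∀ c, ∃ b ∈ A2, (∀ k : Fin n, f b k = t k) ∧ c < f b n := by
    by_contra h
    push Not at h
    choose bt hbt using h
    obtain ⟨b, hb, hb2⟩ := hn1 ((Finset.Iic bd).sup bt)
    have h1 : f b n ≤ bt (fun k => f b k) := hbt _ b hb (fun k => rfl)
    have h2 : bt (fun k => f b k) ≤ (Finset.Iic bd).sup bt := by
      refine Finset.le_sup (f := bt) ?_
      rw [Finset.mem_Iic]
      exact fun k => hbd k b hb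
    omega
  obtain ⟨b0, hb0, hb0t, -⟩ := ht 0
  obtain ⟨hαX, hαt⟩ := hd ⟨n, t⟩ ⟨b0, hb0.1.1, hb0t⟩
  set α := d ⟨n, t⟩ with hα
  have hαγ : α < γ := hγ α ⟨_, rfl⟩
  obtain ⟨m, hm⟩ := hinc α γ hαγ
  obtain ⟨β, hβ, hβt, hβn⟩ := ht (f α (m + n₀))
  have hαβ : α < β := hαγ.trans hβ.1.2
  have hle : ∀ k, f α k ≤ f β k := by
    intro k
    rcases lt_or_ge k n with h | h
    · have h1 := hαt ⟨k, h⟩
      have h2 := hβt ⟨k, h⟩
      simp only at h1 h2
      rw [h1, h2]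
    · rcases lt_or_ge k (m + n₀) with h3 | h3
      · calc f α k ≤ f α (m + n₀) := hmono α h3.le
          _ ≤ f β n := hβn.le
          _ ≤ f β k := hmono β h
      · refine (hm k (by omega)).trans (hNγ β hβ.1.2 k ?_)
        rw [hβ.2]; omega
  rcases hX α hαX β hβ.1.1 hαβ.ne with ⟨-, k, hk⟩ | ⟨h, -⟩
  · exact absurd (hle k) (not_le.2 hk)
  · exact absurd h (not_lt.2 hαβ.le)

end Pool.Agent.Helper8.KP
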