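import Mathlib

/-!
# Interleaving sequences
-/

namespace Pool.Agent.Helper8.KP

open Set

/-- the code of the trace on `n` of a set of natural numbers -/
noncomputable def trc (n : ℕ) (A : Set ℕ) : ℕ := by
  classical
  exact Encodable.encode ((Finset.range n).filter (fun k => k ∈ A))

theorem trc_inj {n : ℕ} {A B : Set ℕ} (h : trc n A = trc n B) : ∀ k < n, (k ∈ A ↔ k ∈ B) := by
  classical
  intro k hk
  have h1 : ((Finset.range n).filter (fun k => k ∈ A)) = ((Finset.range n).filter (fun k => k ∈ B)) :=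
    Encodable.encode_injective h
  have h2 := Finset.ext_iff.1 h1 k
  simpa [hk] using h2

theorem exists_trc {Ω : Type} (r : Ω → Set ℕ) (hr : Function.Injective r) (F : Finset Ω) :
    ∃ n, ∀ δ ∈ F, ∀ ε ∈ F, trc n (r δ) = trc n (r ε) → δ = ε := by
  classical
  have hd : ∀ δ ε : Ω, ∃ k, δ ≠ ε → ¬ (k ∈ r δ ↔ k ∈ r ε) := by
    intro δ ε
    by_cases h : δ = ε
    · exact ⟨0, fun h' => absurd h h'⟩
    · by_contra hcon
      push Not at hcon
      apply h
      apply hr
      ext k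
      exact (hcon k).2
  choose d hd using hd
  refine ⟨F.sup (fun δ => F.sup (fun ε => d δ ε + 1)), fun δ hδ ε hε h => ?_⟩
  by_contra hne
  apply hd δ ε hne
  refine trc_inj h _ ?_
  have h1 : d δ ε + 1 ≤ F.sup (fun ε => d δ ε + 1) := Finset.le_sup (f := fun ε => d δ ε + 1) hε
  have h2 : F.sup (fun ε => d δ ε + 1) ≤ F.sup (fun δ => F.sup (fun ε => d δ ε + 1)) :=
    Finset.le_sup (f := fun δ => F.sup (fun ε => d δ ε + 1)) hδ
  omega

/-- there are sequences `x δ` such that for every finite set `F` and every `ξ` below `F` the sequences `x δ`,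
for `δ` in `F`, take the value `ξ` simultaneously at infinitely many places of each parity -/
theorem exists_inter {Ω : Type} [LinearOrder Ω] [Nonempty Ω] (hc : ∀ a : Ω, (Set.Iio a).Countable)
    (hcard : Cardinal.mk Ω ≤ Cardinal.continuum) :
    ∃ x : Ω → ℕ → Ω, ∀ (F : Finset Ω) (ξ : Ω), (∀ δ ∈ F, ξ < δ) → ∀ b < 2, ∀ N : ℕ,
      ∃ i, N ≤ i ∧ i % 2 = b ∧ ∀ δ ∈ F, x δ i = ξ := by
  classical
  obtain ⟨r, hr⟩ : ∃ r : Ω → Set ℕ, Function.Injective r := by
    have h1 : Cardinal.mk Ω ≤ Cardinal.mk (Set ℕ) := by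
      rw [Cardinal.mk_set, Cardinal.mk_nat, Cardinal.two_power_aleph0]
      exact hcard
    obtain ⟨f⟩ := Cardinal.le_def _ _ |>.1 h1
    exact ⟨f, f.injective⟩
  have he : ∀ δ : Ω, ∃ e : Ω → ℕ, Set.InjOn e (Set.Iio δ) := fun δ =>
    Set.countable_iff_exists_injOn.1 (hc δ)
  choose e he using he
  let q : ℕ → ℕ × List ℕ := fun i => (Encodable.decode (α := ℕ × List ℕ) (Nat.unpair (i / 2)).1).getD (0, [])
  let k : Ω → ℕ → ℕ := fun δ i => (q i).2.getD (trc (q i).1 (r δ)) 0
  let x : Ω → ℕ → Ω := fun δ i => if h : ∃ ξ, ξ < δ ∧ e δ ξ = k δ i then h.choose else Classical.arbitrary Ω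
  refine ⟨x, fun F ξ hF b hb N => ?_⟩
  obtain ⟨n, hn⟩ := exists_trc r hr F
  let φ : ℕ → ℕ := fun m => if h : ∃ δ ∈ F, trc n (r δ) = m then e h.choose ξ else 0
  have hφ : ∀ δ ∈ F, φ (trc n (r δ)) = e δ ξ := by
    intro δ hδ
    have h : ∃ δ' ∈ F, trc n (r δ') = trc n (r δ) := ⟨δ, hδ, rfl⟩
    have h1 : φ (trc n (r δ)) = e h.choose ξ := dif_pos h
    rw [h1, hn _ h.choose_spec.1 δ hδ h.choose_spec.2]
  let M : ℕ := F.sup (fun δ => trc n (r δ)) + 1
  let L : List ℕ := (List.range M).map φ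
  have hL : ∀ δ ∈ F, L.getD (trc n (r δ)) 0 = e δ ξ := by
    intro δ hδ
    have h1 : trc n (r δ) ≤ F.sup (fun δ => trc n (r δ)) := Finset.le_sup (f := fun δ => trc n (r δ)) hδ
    have h2 : trc n (r δ) < M := by
      show _ < _ + 1
      omega
    rw [← hφ δ hδ, List.getD_eq_getElem?_getD, List.getElem?_map, List.getElem?_range h2]
    rfl
  refine ⟨2 * Nat.pair (Encodable.encode (n, L)) N + b, ?_, by omega, ?_⟩
  · have := Nat.right_le_pair (Encodable.encode (n, L)) N
    omega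
  · intro δ hδ
    have hq : q (2 * Nat.pair (Encodable.encode (n, L)) N + b) = (n, L) := by
      have h1 : (2 * Nat.pair (Encodable.encode (n, L)) N + b) / 2 = Nat.pair (Encodable.encode (n, L)) N := by
        omega
      show (Encodable.decode (α := ℕ × List ℕ) (Nat.unpair _).1).getD (0, []) = _
      rw [h1, Nat.unpair_pair, Encodable.encodek]
      rfl
    have hk : k δ (2 * Nat.pair (Encodable.encode (n, L)) N + b) = e δ ξ := by
      show (q _).2.getD (trc (q _).1 (r δ)) 0 = _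
      rw [hq]
      exact hL δ hδ
    have h : ∃ ξ', ξ' < δ ∧ e δ ξ' = k δ (2 * Nat.pair (Encodable.encode (n, L)) N + b) :=
      ⟨ξ, hF δ hδ, hk.symm⟩
    have h1 : x δ (2 * Nat.pair (Encodable.encode (n, L)) N + b) = h.choose := dif_pos h
    rw [h1]
    exact he δ h.choose_spec.1 (hF δ hδ) (h.choose_spec.2.trans hk)

end Pool.Agent.Helper8.KP
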