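import Mathlib

/-!
# A random graph lemma for tuples with a common coordinate
-/

namespace Pool.Agent.Helper8.KP

open Finset

/-- counting the colourings for which no member of a family of disjoint sets is monochromatic of colour `b` -/
theorem count_bad {E ι : Type*} [Fintype E] [DecidableEq E] [DecidableEq ι] (M : ℕ) (b : Bool)
    (k : ι → Finset E) (K : Finset ι) :
    (∀ a ∈ K, 2 ^ (k a).card ≤ M) → (∀ a ∈ K, ∀ a' ∈ K, a ≠ a' → Disjoint (k a) (k a')) →
    (Finset.univ.filter fun c : E → Bool => ∀ a ∈ K, ∃ e ∈ k a, c e ≠ b).card * M ^ K.card ≤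
      2 ^ Fintype.card E * (M - 1) ^ K.card := by
  classical
  induction K using Finset.induction_on with
  | empty =>
    intro _ _
    simp
  | insert a K haK ih =>
    intro hk hd
    have ih' := ih (fun a' ha' => hk a' (Finset.mem_insert_of_mem ha'))
      (fun a' ha' a'' ha'' h => hd a' (Finset.mem_insert_of_mem ha') a'' (Finset.mem_insert_of_mem ha'') h)
    set B' := (Finset.univ.filter fun c : E → Bool => ∀ a ∈ K, ∃ e ∈ k a, c e ≠ b) with hB'
    set B := (Finset.univ.filter fun c : E → Bool => ∀ a' ∈ insert a K, ∃ e ∈ k a', c e ≠ b) with hB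
    set U := B'.filter (fun c => ∀ e ∈ k a, c e = b) with hU
    have h1 : B = B'.filter (fun c => ¬ ∀ e ∈ k a, c e = b) := by
      ext c
      simp only [hB, hB', Finset.mem_filter, Finset.mem_univ, true_and, Finset.mem_insert, forall_eq_or_imp]
      push Not
      constructor
      · rintro ⟨h2, h3⟩; exact ⟨h3, h2⟩
      · rintro ⟨h2, h3⟩; exact ⟨h3, h2⟩
    have h2 : U.card + B.card = B'.card := by
      rw [h1]
      exact Finset.card_filter_add_card_filter_not _
    have h3 : B'.card ≤ M * U.card := by
      let F : (E → Bool) → (E → Bool) := fun c e => if e ∈ k a then b else c e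
      have h4 : B'.card ≤ M * (B'.image F).card := by
        refine Finset.card_le_mul_card_image _ _ fun u _ => ?_
        refine le_trans ?_ (hk a (Finset.mem_insert_self _ _))
        have h5 : ({c ∈ B' | F c = u}).card ≤ (Finset.univ : Finset ({e // e ∈ k a} → Bool)).card := by
          refine Finset.card_le_card_of_injOn (fun c e => c e.1) (fun _ _ => Finset.mem_univ _) ?_
          intro c hc c' hc' hcc
          rw [Finset.mem_coe, Finset.mem_filter] at hc hc'
          funext e
          by_cases he : e ∈ k a
          · exact congrFun hcc ⟨e, he⟩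
          · have h6 := congrFun (hc.2.trans hc'.2.symm) e
            simpa [F, he] using h6
        rw [Finset.card_univ, Fintype.card_fun, Fintype.card_bool, Fintype.card_coe] at h5
        exact h5
      refine h4.trans (Nat.mul_le_mul_left _ (Finset.card_le_card ?_))
      intro u hu
      rw [Finset.mem_image] at hu
      obtain ⟨c, hc, rfl⟩ := hu
      rw [hU, Finset.mem_filter]
      refine ⟨?_, fun e he => by simp [F, he]⟩
      rw [hB', Finset.mem_filter] at hc ⊢
      refine ⟨Finset.mem_univ _, fun a' ha' => ?_⟩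
      obtain ⟨e, he, hce⟩ := hc.2 a' ha'
      refine ⟨e, he, ?_⟩
      have hea : e ∉ k a := by
        intro h
        exact Finset.disjoint_left.1 (hd a (Finset.mem_insert_self _ _) a' (Finset.mem_insert_of_mem ha')
          (fun h' => haK (h' ▸ ha'))) h he
      simpa [F, hea] using hce
    have h4 : B.card * M ≤ B'.card * (M - 1) := by
      rw [Nat.mul_sub, Nat.mul_one]
      have h5 : B'.card * M = U.card * M + B.card * M := by rw [← h2]; ring
      have h6 : M * U.card = U.card * M := Nat.mul_comm _ _
      omega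
    rw [Finset.card_insert_of_notMem haK, pow_succ, pow_succ]
    calc B.card * (M ^ K.card * M) = (B.card * M) * M ^ K.card := by ring
      _ ≤ (B'.card * (M - 1)) * M ^ K.card := Nat.mul_le_mul_right _ h4
      _ = (B'.card * M ^ K.card) * (M - 1) := by ring
      _ ≤ (2 ^ Fintype.card E * (M - 1) ^ K.card) * (M - 1) := Nat.mul_le_mul_right _ ih'
      _ = _ := by ring

theorem two_terms (a n : ℕ) : a ^ (n + 1) + (n + 1) * a ^ n ≤ (a + 1) ^ (n + 1) := by
  induction n with
  | zero => simp
  | succ n ih =>
    calc a ^ (n + 1 + 1) + (n + 1 + 1) * a ^ (n + 1)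
        ≤ (a ^ (n + 1) + (n + 1) * a ^ n) * (a + 1) := by
          have : 0 ≤ (n + 1) * a ^ n := Nat.zero_le _
          rw [pow_succ a (n + 1), pow_succ a n]
          nlinarith
      _ ≤ (a + 1) ^ (n + 1) * (a + 1) := Nat.mul_le_mul_right _ ih
      _ = _ := by ring

theorem two_mul_pred_pow (M : ℕ) (hM : 1 ≤ M) : 2 * (M - 1) ^ M ≤ M ^ M := by
  obtain ⟨n, rfl⟩ : ∃ n, M = n + 1 := ⟨M - 1, by omega⟩
  have h := two_terms n n
  have h2 : n ^ (n + 1) ≤ (n + 1) * n ^ n := by
    rw [pow_succ]
    nlinarith [Nat.zero_le (n ^ n)]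
  simp only [Nat.add_sub_cancel]
  omega

end Pool.Agent.Helper8.KP
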