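import Mathlib
import Pool.Agent.Helper8.KP.Rand

/-!
# The random graph lemma
-/

namespace Pool.Agent.Helper8.KP

open Finset

/-- the index set of pairs -/
def pairs (N : ℕ) : Finset (Σ _ : Fin N, Fin N) := Finset.univ.sigma fun q : Fin N => Finset.Iio q

theorem mem_pairs {N : ℕ} {x : Σ _ : Fin N, Fin N} : x ∈ pairs N ↔ x.2 < x.1 := by
  simp [pairs]

theorem card_pairs (N : ℕ) : (pairs N).card * 2 = N * (N - 1) := by
  rw [pairs, Finset.card_sigma]
  simp only [Fin.card_Iio]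
  rw [Fin.sum_univ_eq_sum_range (fun q => q) N]
  exact Finset.sum_range_id_mul_two N

/-- the set of unordered pairs belonging to an index -/
def edgs {N i : ℕ} {W : Type} [DecidableEq W] (v : Fin N → Fin i → W) (x : Σ _ : Fin N, Fin N) :
    Finset (Sym2 W) :=
  Finset.univ.image fun s : Fin i => s(v x.2 s, v x.1 s)

/-- the colourings which are bad for `b` and `v` -/
noncomputable def badSet {N i : ℕ} {W : Type} [DecidableEq W] [Fintype W] (b : Bool)
    (v : Fin N → Fin i → W) : Finset (Sym2 W → Bool) := by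
  classical
  exact Finset.univ.filter fun c : Sym2 W → Bool => ∀ a ∈ pairs N, ∃ e ∈ edgs v a, c e ≠ b

theorem mem_badSet {N i : ℕ} {W : Type} [DecidableEq W] [Fintype W] {b : Bool}
    {v : Fin N → Fin i → W} {c : Sym2 W → Bool} :
    c ∈ badSet b v ↔ ∀ a ∈ pairs N, ∃ e ∈ edgs v a, c e ≠ b := by
  simp [badSet]

theorem card_badSet {i h Z N : ℕ} (hN : N = 2 ^ (i + 1) * Z + 1) (j : Fin i) (b : Bool)
    (v : Fin N → Fin i → (Fin i → Fin h))
    (hv : ∃ a : Fin N → Fin h, Function.Injective a ∧ ∀ p s, v p s j = a p) :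
    (badSet b v).card * 2 ^ (N * Z) ≤ 2 ^ Fintype.card (Sym2 (Fin i → Fin h)) := by
  classical
  obtain ⟨a, ha, hva⟩ := hv
  have h1 := count_bad (E := Sym2 (Fin i → Fin h)) (2 ^ i) b (edgs v) (pairs N)
    (by
      intro x _
      refine Nat.pow_le_pow_right (by norm_num) ?_
      refine Finset.card_image_le.trans ?_
      simp)
    (by
      intro x hx y hy hxy
      rw [mem_pairs] at hx hy
      rw [Finset.disjoint_left]
      intro e he he'
      simp only [edgs, Finset.mem_image, Finset.mem_univ, true_and] at he he'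
      obtain ⟨s, hs⟩ := he
      obtain ⟨s', hs'⟩ := he'
      have h2 : s(v x.2 s, v x.1 s) = s(v y.2 s', v y.1 s') := hs.trans hs'.symm
      rw [Sym2.eq_iff] at h2
      rcases h2 with ⟨h3, h4⟩ | ⟨h3, h4⟩
      · apply hxy
        have h5 : x.2 = y.2 := ha (by rw [← hva x.2 s, ← hva y.2 s', h3])
        have h6 : x.1 = y.1 := ha (by rw [← hva x.1 s, ← hva y.1 s', h4])
        exact Sigma.ext h6 (heq_of_eq h5)
      · have h5 : x.2 = y.1 := ha (by rw [← hva x.2 s, ← hva y.1 s', h3])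
        have h6 : x.1 = y.2 := ha (by rw [← hva x.1 s, ← hva y.2 s', h4])
        rw [h5, h6] at hx
        exact absurd hx (not_lt.2 hy.le))
  have h2 : (pairs N).card = 2 ^ i * (N * Z) := by
    have h3 := card_pairs N
    have h4 : N - 1 = 2 ^ (i + 1) * Z := by rw [hN]; simp
    rw [h4] at h3
    have h5 : N * (2 ^ (i + 1) * Z) = 2 ^ i * (N * Z) * 2 := by rw [pow_succ]; ring
    rw [h5] at h3
    exact Nat.eq_of_mul_eq_mul_right (by norm_num) h3
  rw [h2] at h1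
  have h3 : 2 ^ (N * Z) * (2 ^ i - 1) ^ (2 ^ i * (N * Z)) ≤ (2 ^ i) ^ (2 ^ i * (N * Z)) := by
    have h4 := Nat.pow_le_pow_left (two_mul_pred_pow (2 ^ i) Nat.one_le_two_pow) (N * Z)
    rw [Nat.mul_pow, ← pow_mul, ← pow_mul] at h4
    exact h4
  have h4 : 0 < (2 ^ i) ^ (2 ^ i * (N * Z)) := by positivity
  refine Nat.le_of_mul_le_mul_right (c := (2 ^ i) ^ (2 ^ i * (N * Z))) ?_ h4
  have h5 : (badSet b v).card * (2 ^ i) ^ (2 ^ i * (N * Z)) ≤
      2 ^ Fintype.card (Sym2 (Fin i → Fin h)) * (2 ^ i - 1) ^ (2 ^ i * (N * Z)) := by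
    refine le_trans (le_of_eq ?_) h1
    congr 2
    ext c
    rw [mem_badSet]
    simp
  calc (badSet b v).card * 2 ^ (N * Z) * (2 ^ i) ^ (2 ^ i * (N * Z))
      = ((badSet b v).card * (2 ^ i) ^ (2 ^ i * (N * Z))) * 2 ^ (N * Z) := by ring
    _ ≤ (2 ^ Fintype.card (Sym2 (Fin i → Fin h)) * (2 ^ i - 1) ^ (2 ^ i * (N * Z))) * 2 ^ (N * Z) :=
      Nat.mul_le_mul_right _ h5
    _ = 2 ^ Fintype.card (Sym2 (Fin i → Fin h)) * (2 ^ (N * Z) * (2 ^ i - 1) ^ (2 ^ i * (N * Z))) := by ring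
    _ ≤ _ := Nat.mul_le_mul_left _ h3

theorem exists_colouring (i h L : ℕ) (hL : h ≤ 2 ^ L) :
    ∃ c : Sym2 (Fin i → Fin h) → Bool, ∀ (b : Bool) (j : Fin i)
      (v : Fin (2 ^ (i + 1) * (L * i ^ 2 + 2 * i + 2) + 1) → Fin i → (Fin i → Fin h)),
      (∃ a : Fin (2 ^ (i + 1) * (L * i ^ 2 + 2 * i + 2) + 1) → Fin h,
        Function.Injective a ∧ ∀ p s, v p s j = a p) → c ∉ badSet b v := by
  classical
  set Z := L * i ^ 2 + 2 * i + 2 with hZ
  set N := 2 ^ (i + 1) * Z + 1 with hN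
  set T : Finset (Bool × Fin i × (Fin N → Fin i → (Fin i → Fin h))) := Finset.univ.filter
    fun t => ∃ a : Fin N → Fin h, Function.Injective a ∧ ∀ p s, t.2.2 p s t.2.1 = a p with hT
  set U : Finset (Sym2 (Fin i → Fin h) → Bool) := T.biUnion fun t => badSet t.1 t.2.2 with hU
  have hTc : T.card < 2 ^ (N * Z) := by
    have h1 : T.card ≤ 2 * (i * ((h ^ i) ^ i) ^ N) := by
      refine (Finset.card_le_univ _).trans (le_of_eq ?_)
      simp [Fintype.card_prod]
    refine h1.trans_lt ?_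
    have h2 : ((h ^ i) ^ i) ^ N ≤ 2 ^ (L * i ^ 2 * N) := by
      calc ((h ^ i) ^ i) ^ N = h ^ (i ^ 2 * N) := by rw [← pow_mul, ← pow_mul]; congr 1; ring
        _ ≤ (2 ^ L) ^ (i ^ 2 * N) := Nat.pow_le_pow_left hL _
        _ = _ := by rw [← pow_mul]; congr 1; ring
    have h3 : 2 * i < 2 ^ (N * (2 * i + 2)) := by
      have h4 : i < 2 ^ i := Nat.lt_two_pow_self
      have h5 : 2 ^ (i + 1) ≤ 2 ^ (N * (2 * i + 2)) := by
        refine Nat.pow_le_pow_right (by norm_num) ?_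
        have : 1 ≤ N := by rw [hN]; omega
        nlinarith
      rw [pow_succ] at h5
      omega
    calc 2 * (i * ((h ^ i) ^ i) ^ N) = (2 * i) * ((h ^ i) ^ i) ^ N := by ring
      _ ≤ (2 * i) * 2 ^ (L * i ^ 2 * N) := Nat.mul_le_mul_left _ h2
      _ < 2 ^ (N * (2 * i + 2)) * 2 ^ (L * i ^ 2 * N) :=
        Nat.mul_lt_mul_of_pos_right h3 (by positivity)
      _ = 2 ^ (N * Z) := by rw [← pow_add]; congr 1; rw [hZ]; ring
  have hUc : U.card < Fintype.card (Sym2 (Fin i → Fin h) → Bool) := by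
    rw [Fintype.card_fun, Fintype.card_bool]
    have h1 : U.card ≤ ∑ t ∈ T, (badSet t.1 t.2.2).card := Finset.card_biUnion_le
    have h2 : U.card * 2 ^ (N * Z) ≤ T.card * 2 ^ Fintype.card (Sym2 (Fin i → Fin h)) := by
      refine (Nat.mul_le_mul_right _ h1).trans ?_
      rw [Finset.sum_mul]
      refine (Finset.sum_le_card_nsmul T _ _ fun t ht => ?_)
      rw [hT, Finset.mem_filter] at ht
      exact card_badSet hN t.2.1 t.1 t.2.2 ht.2
    by_contra hcon
    rw [not_lt] at hcon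
    have h3 : 2 ^ Fintype.card (Sym2 (Fin i → Fin h)) * 2 ^ (N * Z) ≤ U.card * 2 ^ (N * Z) :=
      Nat.mul_le_mul_right _ hcon
    have h4 : T.card * 2 ^ Fintype.card (Sym2 (Fin i → Fin h)) <
        2 ^ (N * Z) * 2 ^ Fintype.card (Sym2 (Fin i → Fin h)) :=
      Nat.mul_lt_mul_of_pos_right hTc (by positivity)
    have h5 : 2 ^ (N * Z) * 2 ^ Fintype.card (Sym2 (Fin i → Fin h)) =
      2 ^ Fintype.card (Sym2 (Fin i → Fin h)) * 2 ^ (N * Z) := Nat.mul_comm _ _
    omega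
  obtain ⟨c, hc⟩ : ∃ c, c ∉ U := by
    by_contra hcon
    push Not at hcon
    have : U = Finset.univ := Finset.eq_univ_iff_forall.2 hcon
    rw [this, Finset.card_univ] at hUc
    exact lt_irrefl _ hUc
  refine ⟨c, fun b j v hv hcb => hc ?_⟩
  rw [hU, Finset.mem_biUnion]
  exact ⟨(b, j, v), by rw [hT, Finset.mem_filter]; exact ⟨Finset.mem_univ _, hv⟩, hcb⟩

theorem exists_graph (i h L : ℕ) (hL : h ≤ 2 ^ L) :
    ∃ ρ : (Fin i → Fin h) → (Fin i → Fin h) → Prop, (∀ v w, ρ v w → ρ w v) ∧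
      ∀ m : ℕ, 1 ≤ m → m ≤ i → ∀ (j : Fin i) (A : Finset (Fin h)),
        2 ^ (i + 1) * (L * i ^ 2 + 2 * i + 2) < A.card → ∀ v : Fin h → Fin m → (Fin i → Fin h),
        (∀ a ∈ A, ∀ s, v a s j = a) →
        (∃ a ∈ A, ∃ a' ∈ A, a ≠ a' ∧ ∀ s, ρ (v a s) (v a' s)) ∧
        (∃ a ∈ A, ∃ a' ∈ A, a ≠ a' ∧ ∀ s, ¬ ρ (v a s) (v a' s)) := by
  classical
  obtain ⟨c, hc⟩ := exists_colouring i h L hL
  refine ⟨fun v w => c s(v, w) = true, fun v w hvw => by
    have h1 : c s(v, w) = true := hvw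
    rw [Sym2.eq_swap] at h1
    exact h1, ?_⟩
  intro m hm1 hmi j A hA v hv
  set N := 2 ^ (i + 1) * (L * i ^ 2 + 2 * i + 2) + 1 with hN
  have hNA : N ≤ A.card := by omega
  let a : Fin N ↪o Fin h := A.orderEmbOfCardLe hNA
  have haA : ∀ p, a p ∈ A := fun p => Finset.orderEmbOfCardLe_mem A hNA p
  let v' : Fin N → Fin i → (Fin i → Fin h) := fun p s =>
    v (a p) (if hs : s.val < m then ⟨s.val, hs⟩ else ⟨0, hm1⟩)
  have hv' : ∃ a : Fin N → Fin h, Function.Injective a ∧ ∀ p s, v' p s j = a p :=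
    ⟨a, a.injective, fun p s => hv _ (haA p) _⟩
  have key : ∀ b : Bool, ∃ a ∈ A, ∃ a' ∈ A, a ≠ a' ∧ ∀ s, c s(v a s, v a' s) = b := by
    intro b
    have h1 := hc b j v' hv'
    rw [mem_badSet] at h1
    push Not at h1
    obtain ⟨x, hx, hxb⟩ := h1
    rw [mem_pairs] at hx
    refine ⟨a x.2, haA _, a x.1, haA _, fun h => hx.ne (a.injective h), fun s => ?_⟩
    refine hxb _ ?_
    rw [edgs, Finset.mem_image]
    refine ⟨⟨s.val, by omega⟩, Finset.mem_univ _, ?_⟩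
    simp [v']
  refine ⟨key true, ?_⟩
  obtain ⟨a, ha, a', ha', hne, h⟩ := key false
  refine ⟨a, ha, a', ha', hne, fun s hs => ?_⟩
  have h1 : c s(v a s, v a' s) = true := hs
  rw [h s] at h1
  exact absurd h1 (by decide)

end Pool.Agent.Helper8.KP
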