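import Mathlib
import Pool.Agent.Helper8.KP.Base
import Pool.Agent.Helper8.KP.Inter
import Pool.Agent.Helper8.KP.Dom
import Pool.Agent.Helper8.KP.RandGraph

/-!
# Localisation of bounded functions, one step
-/

namespace Pool.Agent.Helper8.KP

open Finset

/-- the rows -/
abbrev Rw (h : ℕ → ℕ) : Type := (i : ℕ) → Fin i → Fin (h i)

/-- the nodes at level `i` -/
abbrev Nd (h : ℕ → ℕ) (i : ℕ) : Type := (l : Fin i) → Fin l → Fin (h l)

/-- the node of a sequence of rows at level `i` -/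
def ndr {h : ℕ → ℕ} (y : Rw h) (i : ℕ) : Nd h i := fun l => y l

theorem ndr_eq_iff {h : ℕ → ℕ} {y z : Rw h} {i : ℕ} : ndr y i = ndr z i ↔ ∀ l < i, y l = z l := by
  constructor
  · intro hyz l hl
    exact congrFun hyz ⟨l, hl⟩
  · intro hyz
    funext l
    exact hyz l l.2

theorem card_Nd (h : ℕ → ℕ) (i : ℕ) : Fintype.card (Nd h i) = ∏ l ∈ Finset.range i, h l ^ l := by
  rw [Fintype.card_pi]
  simp only [Fintype.card_fun, Fintype.card_fin]
  exact Fin.prod_univ_eq_prod_range (fun l => h l ^ l) i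

/-- the relation on sequences of rows -/
def Rl {h : ℕ → ℕ} (ρ : (i : ℕ) → (Fin i → Fin (h i)) → (Fin i → Fin (h i)) → Prop) (y z : Rw h) : Prop :=
  ∃ i, ndr y i = ndr z i ∧ y i ≠ z i ∧ ρ i (y i) (z i)

theorem Rl.symm {h : ℕ → ℕ} {ρ : (i : ℕ) → (Fin i → Fin (h i)) → (Fin i → Fin (h i)) → Prop}
    (hρ : ∀ i v w, ρ i v w → ρ i w v) {y z : Rw h} (hR : Rl ρ y z) : Rl ρ z y := by
  obtain ⟨i, h1, h2, h3⟩ := hR
  exact ⟨i, h1.symm, h2.symm, hρ i _ _ h3⟩

theorem Rl.of_eq {h : ℕ → ℕ} {ρ : (i : ℕ) → (Fin i → Fin (h i)) → (Fin i → Fin (h i)) → Prop}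
    {y z : Rw h} (hR : Rl ρ y z) {i : ℕ} (h1 : ndr y i = ndr z i) (h2 : y i ≠ z i) : ρ i (y i) (z i) := by
  obtain ⟨k, h3, h4, h5⟩ := hR
  rcases lt_trichotomy i k with hik | hik | hik
  · exact absurd (ndr_eq_iff.1 h3 i hik) h2
  · subst hik
    exact h5
  · exact absurd (ndr_eq_iff.1 h1 k hik) h4

theorem Rl.transfer {h : ℕ → ℕ} {ρ : (i : ℕ) → (Fin i → Fin (h i)) → (Fin i → Fin (h i)) → Prop}
    {y z z' : Rw h} (hR : Rl ρ y z') {i : ℕ} (h1 : ndr y i ≠ ndr z i) (h2 : ndr z' i = ndr z i) :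
    Rl ρ y z := by
  obtain ⟨k, h3, h4, h5⟩ := hR
  have hki : k < i := by
    by_contra hcon
    apply h1
    rw [← h2, ndr_eq_iff]
    intro l hl
    exact ndr_eq_iff.1 h3 l (by omega)
  have h6 : z' k = z k := ndr_eq_iff.1 h2 k hki
  refine ⟨k, ?_, ?_, ?_⟩
  · rw [h3, ndr_eq_iff]
    intro l hl
    exact ndr_eq_iff.1 h2 l (by omega)
  · rw [← h6]; exact h4
  · rw [← h6]; exact h5

theorem exists_sep {Ω : Type} {h : ℕ → ℕ} {ρ : (i : ℕ) → (Fin i → Fin (h i)) → (Fin i → Fin (h i)) → Prop}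
    (y : Ω → Rw h) (F : Finset Ω) (hF : ∀ a ∈ F, ∀ b ∈ F, a ≠ b → Rl ρ (y a) (y b)) :
    ∃ N, ∀ i, N ≤ i → ∀ a ∈ F, ∀ b ∈ F, ndr (y a) i = ndr (y b) i → a = b := by
  classical
  have hd : ∀ a b : Ω, ∃ k, a ∈ F → b ∈ F → a ≠ b → y a k ≠ y b k := by
    intro a b
    by_cases h : a ∈ F ∧ b ∈ F ∧ a ≠ b
    · obtain ⟨i, -, h3, -⟩ := hF a h.1 b h.2.1 h.2.2
      exact ⟨i, fun _ _ _ => h3⟩
    · exact ⟨0, fun h1 h2 h3 => absurd ⟨h1, h2, h3⟩ h⟩
  choose d hd using hd
  refine ⟨F.sup (fun a => F.sup (fun b => d a b + 1)), fun i hi a ha b hb hab => ?_⟩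
  by_contra hne
  have h1 : d a b + 1 ≤ F.sup (fun b => d a b + 1) := Finset.le_sup (f := fun b => d a b + 1) hb
  have h2 : F.sup (fun b => d a b + 1) ≤ F.sup (fun a => F.sup (fun b => d a b + 1)) :=
    Finset.le_sup (f := fun a => F.sup (fun b => d a b + 1)) ha
  exact hd a b ha hb hne (ndr_eq_iff.1 hab _ (by omega))

/-- the width of the first step -/
def wB (h L : ℕ → ℕ) (i : ℕ) : ℕ :=
  (∏ l ∈ Finset.range i, h l ^ l) ^ i * i * (2 ^ (i + 1) * (L i * i ^ 2 + 2 * i + 2))

theorem loc_step (H : Star) {Ω : Type} [LinearOrder Ω] [Uncountable Ω]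
    (hc : ∀ a : Ω, (Set.Iio a).Countable) (hcard : Cardinal.mk Ω ≤ Cardinal.continuum) (h L : ℕ → ℕ)
    (hh : ∀ i, 1 ≤ h i) (hL : ∀ i, h i ≤ 2 ^ L i) (f : Ω → (i : ℕ) → Fin (h i)) :
    ∃ S : (i : ℕ) → Finset (Fin (h i)), (∀ i, (S i).card ≤ wB h L i) ∧
      ∀ ξ, ∃ k, ∀ i, k ≤ i → f ξ i ∈ S i := by
  classical
  obtain ⟨x, hx⟩ := exists_inter hc hcard
  have hρ := fun i => exists_graph i (h i) (L i) (hL i)
  choose ρ hρs hρ using hρ
  let y : Ω → Rw h := fun δ i j => f (x δ j) i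
  have hNpos : ∀ i, 1 ≤ ∏ l ∈ Finset.range i, h l ^ l := fun i =>
    Finset.prod_pos fun l _ => Nat.pow_pos (hh l)
  by_cases hccc : ∀ (𝒜 : Set (Finset Ω)) (m : ℕ), ¬ 𝒜.Countable → (∀ F ∈ 𝒜, F.Nonempty) →
      (∀ F ∈ 𝒜, F.card = m) → (∀ F ∈ 𝒜, ∀ G ∈ 𝒜, F ≠ G → Disjoint F G) →
      (∀ F ∈ 𝒜, ∀ a ∈ F, ∀ b ∈ F, a ≠ b → Rl ρ (y a) (y b)) →
      ∃ F ∈ 𝒜, ∃ G ∈ 𝒜, F ≠ G ∧ ∀ a ∈ F, ∀ b ∈ G, Rl ρ (y a) (y b) ∧ Rl ρ (y b) (y a)
  · obtain ⟨X, hXc, hX⟩ := exists_clique H (fun a b => Rl ρ (y a) (y b)) hccc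
    let A : (i : ℕ) → Nd h i → Fin i → Finset (Fin (h i)) := fun i t j =>
      Finset.univ.filter fun a => ∃ δ ∈ X, ndr (y δ) i = t ∧ y δ i j = a
    refine ⟨fun i => Finset.univ.biUnion fun t : Nd h i => Finset.univ.biUnion fun j : Fin i => A i t j,
      ?_, ?_⟩
    · intro i
      have hA : ∀ t j, (A i t j).card ≤ 2 ^ (i + 1) * (L i * i ^ 2 + 2 * i + 2) := by
        intro t j
        by_contra hcon
        push Not at hcon
        have hδ : ∀ a : Fin (h i), ∃ δ : Ω, a ∈ A i t j → δ ∈ X ∧ ndr (y δ) i = t ∧ y δ i j = a := by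
          intro a
          by_cases ha : a ∈ A i t j
          · have ha' := ha
            simp only [A, Finset.mem_filter, Finset.mem_univ, true_and] at ha'
            obtain ⟨δ, h1, h2, h3⟩ := ha'
            exact ⟨δ, fun _ => ⟨h1, h2, h3⟩⟩
          · obtain ⟨δ⟩ : Nonempty Ω := inferInstance
            exact ⟨δ, fun h => absurd h ha⟩
        choose δ hδ using hδ
        have hi1 : 1 ≤ i := by have := j.2; omega
        obtain ⟨-, a, ha, a', ha', hne, hρa⟩ := hρ i 1 le_rfl hi1 j (A i t j) hcon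
          (fun a _ => y (δ a) i) (fun a ha _ => (hδ a ha).2.2)
        have h1 := hδ a ha
        have h2 := hδ a' ha'
        have h3 : δ a ≠ δ a' := by
          intro h
          apply hne
          rw [← h1.2.2, ← h2.2.2, h]
        have h4 := hX _ h1.1 _ h2.1 h3
        refine hρa 0 (Rl.of_eq h4 (h1.2.1.trans h2.2.1.symm) ?_)
        intro h
        apply hne
        rw [← h1.2.2, ← h2.2.2, h]
      have h1 : (Finset.univ.biUnion fun t : Nd h i => Finset.univ.biUnion fun j : Fin i => A i t j).card ≤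
          (Finset.univ : Finset (Nd h i)).card *
            ((Finset.univ : Finset (Fin i)).card * (2 ^ (i + 1) * (L i * i ^ 2 + 2 * i + 2))) := by
        refine Finset.card_biUnion_le_card_mul _ _ _ fun t _ => ?_
        exact Finset.card_biUnion_le_card_mul _ _ _ fun j _ => hA t j
      refine h1.trans ?_
      rw [Finset.card_univ, card_Nd, Finset.card_univ, Fintype.card_fin, wB, mul_assoc]
      rcases Nat.eq_zero_or_pos i with hi | hi
      · subst hi
        simp
      · refine Nat.mul_le_mul_right _ ?_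
        exact Nat.le_self_pow (by omega) _
    · intro ξ
      obtain ⟨δ, hδ, hξ⟩ : ∃ δ ∈ X, ξ < δ := by
        by_contra hcon
        push Not at hcon
        apply hXc
        refine Set.Countable.mono (s₂ := Set.Iic ξ) (fun δ hδ => hcon δ hδ) ?_
        rw [← Set.Iio_insert]
        exact (hc ξ).insert ξ
      obtain ⟨j, -, -, hj⟩ := hx {δ} ξ (by
        intro δ' hδ'
        rw [Finset.mem_singleton] at hδ'
        rw [hδ']; exact hξ) 0 (by norm_num) 0
      have hj' : x δ j = ξ := hj δ (Finset.mem_singleton_self _)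
      refine ⟨j + 1, fun i hi => ?_⟩
      rw [Finset.mem_biUnion]
      refine ⟨ndr (y δ) i, Finset.mem_univ _, ?_⟩
      rw [Finset.mem_biUnion]
      refine ⟨⟨j, by omega⟩, Finset.mem_univ _, ?_⟩
      simp only [A, Finset.mem_filter, Finset.mem_univ, true_and]
      refine ⟨δ, hδ, rfl, ?_⟩
      show f (x δ j) i = f ξ i
      rw [hj']
  · push Not at hccc
    obtain ⟨𝒜, m, hA, hne, hm, hdis, hcl, hbad⟩ := hccc
    have hm1 : 1 ≤ m := by
      obtain ⟨F, hF⟩ : 𝒜.Nonempty := by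
        by_contra h
        rw [Set.not_nonempty_iff_eq_empty] at h
        apply hA
        rw [h]
        exact Set.countable_empty
      rw [← hm F hF]
      exact Finset.card_pos.2 (hne F hF)
    let A : (i : ℕ) → Finset (Nd h i) → Fin i → Finset (Fin (h i)) := fun i P j =>
      Finset.univ.filter fun a => ∃ F ∈ 𝒜, F.image (fun δ => ndr (y δ) i) = P ∧ ∀ δ ∈ F, y δ i j = a
    refine ⟨fun i => if m ≤ i then (Finset.powersetCard m (Finset.univ : Finset (Nd h i))).biUnion
      fun P => Finset.univ.biUnion fun j : Fin i => A i P j else ∅, ?_, ?_⟩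
    · intro i
      by_cases hmi : m ≤ i
      swap
      · simp only [if_neg hmi, Finset.card_empty]
        exact Nat.zero_le _
      simp only [if_pos hmi]
      have hAc : ∀ P ∈ Finset.powersetCard m (Finset.univ : Finset (Nd h i)), ∀ j,
          (A i P j).card ≤ 2 ^ (i + 1) * (L i * i ^ 2 + 2 * i + 2) := by
        intro P hP j
        rw [Finset.mem_powersetCard] at hP
        by_contra hcon
        push Not at hcon
        have hF : ∀ a : Fin (h i), ∃ F : Finset Ω, a ∈ A i P j →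
            F ∈ 𝒜 ∧ F.image (fun δ => ndr (y δ) i) = P ∧ ∀ δ ∈ F, y δ i j = a := by
          intro a
          by_cases ha : a ∈ A i P j
          · have ha' := ha
            simp only [A, Finset.mem_filter, Finset.mem_univ, true_and] at ha'
            obtain ⟨F, h1, h2, h3⟩ := ha'
            exact ⟨F, fun _ => ⟨h1, h2, h3⟩⟩
          · exact ⟨∅, fun h => absurd h ha⟩
        choose F hF using hF
        have hinj : ∀ a ∈ A i P j, ∀ δ ∈ F a, ∀ ε ∈ F a, ndr (y δ) i = ndr (y ε) i → δ = ε := by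
          intro a ha
          have h1 := hF a ha
          have h2 : (F a).card = ((F a).image (fun δ => ndr (y δ) i)).card := by
            rw [h1.2.1, hm _ h1.1, hP.2]
          intro δ hδ ε hε
          exact Finset.card_image_iff.1 h2.symm hδ hε
        let e : P ≃ Fin m := Finset.equivFinOfCardEq hP.2
        have hδ : ∀ (a : Fin (h i)) (s : Fin m), ∃ δ : Ω, a ∈ A i P j →
            δ ∈ F a ∧ ndr (y δ) i = (e.symm s).1 := by
          intro a s
          by_cases ha : a ∈ A i P j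
          · have h1 : (e.symm s).1 ∈ (F a).image (fun δ => ndr (y δ) i) := by
              rw [(hF a ha).2.1]
              exact (e.symm s).2
            rw [Finset.mem_image] at h1
            obtain ⟨δ, h2, h3⟩ := h1
            exact ⟨δ, fun _ => ⟨h2, h3⟩⟩
          · obtain ⟨δ⟩ : Nonempty Ω := inferInstance
            exact ⟨δ, fun h => absurd h ha⟩
        choose δ hδ using hδ
        obtain ⟨⟨a, ha, a', ha', hne', hρa⟩, -⟩ := hρ i m hm1 hmi j (A i P j) hcon
          (fun a s => y (δ a s) i) (fun a ha s => (hF a ha).2.2 _ (hδ a s ha).1)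
        have hFa := hF a ha
        have hFa' := hF a' ha'
        have hR : ∀ γ ∈ F a, ∀ ε ∈ F a', Rl ρ (y γ) (y ε) := by
          intro γ hγ ε hε
          have hεP : ndr (y ε) i ∈ P := by
            rw [← hFa'.2.1]
            exact Finset.mem_image_of_mem _ hε
          by_cases hγε : ndr (y γ) i = ndr (y ε) i
          · refine ⟨i, hγε, ?_, ?_⟩
            · intro h
              apply hne'
              rw [← hFa.2.2 γ hγ, ← hFa'.2.2 ε hε, h]
            · have h1 := hρa (e ⟨ndr (y ε) i, hεP⟩)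
              have h2 := hδ a (e ⟨ndr (y ε) i, hεP⟩) ha
              have h3 := hδ a' (e ⟨ndr (y ε) i, hεP⟩) ha'
              rw [Equiv.symm_apply_apply] at h2 h3
              have h4 : δ a (e ⟨ndr (y ε) i, hεP⟩) = γ :=
                hinj a ha _ h2.1 _ hγ (h2.2.trans hγε.symm)
              have h5 : δ a' (e ⟨ndr (y ε) i, hεP⟩) = ε := hinj a' ha' _ h3.1 _ hε h3.2
              rw [h4, h5] at h1
              exact h1
          · have h2 := hδ a (e ⟨ndr (y ε) i, hεP⟩) ha
            rw [Equiv.symm_apply_apply] at h2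
            have h3 : γ ≠ δ a (e ⟨ndr (y ε) i, hεP⟩) := by
              intro h
              apply hγε
              rw [h]
              exact h2.2
            exact Rl.transfer (hcl _ hFa.1 γ hγ _ h2.1 h3) hγε h2.2
        obtain ⟨γ, hγ, ε, hε, h1⟩ := hbad (F a) hFa.1 (F a') hFa'.1 (by
          intro h
          obtain ⟨γ, hγ⟩ := hne _ hFa.1
          apply hne'
          rw [← hFa.2.2 γ hγ, ← hFa'.2.2 γ (by rw [← h]; exact hγ)])
        exact h1 (hR γ hγ ε hε) (Rl.symm hρs (hR γ hγ ε hε))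
      have h1 : ((Finset.powersetCard m (Finset.univ : Finset (Nd h i))).biUnion
          fun P => Finset.univ.biUnion fun j : Fin i => A i P j).card ≤
          (Finset.powersetCard m (Finset.univ : Finset (Nd h i))).card *
            ((Finset.univ : Finset (Fin i)).card * (2 ^ (i + 1) * (L i * i ^ 2 + 2 * i + 2))) := by
        refine Finset.card_biUnion_le_card_mul _ _ _ fun P hP => ?_
        exact Finset.card_biUnion_le_card_mul _ _ _ fun j _ => hAc P hP j
      refine h1.trans ?_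
      rw [Finset.card_powersetCard, Finset.card_univ, card_Nd, Finset.card_univ, Fintype.card_fin, wB,
        mul_assoc]
      refine Nat.mul_le_mul_right _ ?_
      exact (Nat.choose_le_pow _ _).trans (Nat.pow_le_pow_right (hNpos i) hmi)
    · intro ξ
      obtain ⟨F, hF, hFξ⟩ := exists_above hc hA hdis ξ
      obtain ⟨N, hN⟩ := exists_sep y F (hcl F hF)
      obtain ⟨j, -, -, hj⟩ := hx F ξ hFξ 0 (by norm_num) 0
      refine ⟨N + m + j + 1, fun i hi => ?_⟩
      simp only [if_pos (show m ≤ i by omega)]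
      rw [Finset.mem_biUnion]
      refine ⟨F.image (fun δ => ndr (y δ) i), ?_, ?_⟩
      · rw [Finset.mem_powersetCard]
        refine ⟨Finset.subset_univ _, ?_⟩
        rw [Finset.card_image_of_injOn, hm F hF]
        intro a ha b hb hab
        exact hN i (by omega) a ha b hb hab
      · rw [Finset.mem_biUnion]
        refine ⟨⟨j, by omega⟩, Finset.mem_univ _, ?_⟩
        simp only [A, Finset.mem_filter, Finset.mem_univ, true_and]
        refine ⟨F, hF, rfl, fun δ hδ => ?_⟩
        show f (x δ j) i = f ξ i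
        rw [hj δ hδ]

end Pool.Agent.Helper8.KP
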