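import Mathlib

/-!
# A finitely branching tree with an avoidance property
-/

namespace Pool.Agent.Helper8.KP

open Set

/-- the code of the list of the first `w` values of `g` at the places belonging to the node `s` -/
def zc (w : ℕ) (g : ℕ → ℕ) (s : List ℕ) : ℕ :=
  Encodable.encode ((List.range w).map fun j => g (Encodable.encode (s, j)))

theorem finite_zc (B : ℕ → ℕ) (w : ℕ) (s : List ℕ) :
    {n | ∃ g : ℕ → ℕ, (∀ k, g k ≤ B k) ∧ zc w g s = n}.Finite := by
  classical
  have h1 : (Set.Iic (fun j : Fin w => B (Encodable.encode (s, (j : ℕ))))).Finite := Set.finite_Iic _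
  refine (h1.image (fun h : Fin w → ℕ => Encodable.encode
    ((List.range w).map fun j => if hj : j < w then h ⟨j, hj⟩ else 0))).subset ?_
  rintro n ⟨g, hg, rfl⟩
  refine ⟨fun j => g (Encodable.encode (s, (j : ℕ))), fun j => hg _, ?_⟩
  show Encodable.encode _ = Encodable.encode _
  congr 1
  refine List.map_congr_left fun j hj => ?_
  rw [List.mem_range] at hj
  rw [dif_pos hj]

/-- the levels of the tree -/
noncomputable def lev (B : ℕ → ℕ) : ℕ → Finset (List ℕ)
  | 0 => {[]}
  | i + 1 => (lev B i).biUnion fun s =>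
      ((finite_zc B (i * (lev B i).card ^ i) s).toFinset).image fun a => a :: s

theorem avoid {Ω : Type} (B : ℕ → ℕ) (f : Ω → ℕ → ℕ) (hf : ∀ ξ n, f ξ n ≤ B n)
    (hneg : ∀ g : ℕ → ℕ, ∃ ξ, ∃ N, ∀ n, N ≤ n → f ξ n ≠ g n) :
    ∃ (T : ℕ → Finset (List ℕ)) (z : Ω → List ℕ → ℕ), [] ∈ T 0 ∧ (∀ i, ∀ s ∈ T i, s.length = i) ∧
      (∀ i, ∀ s ∈ T i, ∀ ξ, z ξ s :: s ∈ T (i + 1)) ∧
      ∀ (m : ℕ) (Q : List ℕ → Finset ℕ), (∀ i, ∀ s ∈ T i, (Q s).card ≤ m * (T i).card ^ m) →
        ∃ ξ, ∃ N, ∀ i, N ≤ i → ∀ s ∈ T i, z ξ s ∉ Q s := by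
  classical
  have hlen : ∀ i, ∀ s ∈ lev B i, s.length = i := by
    intro i
    induction i with
    | zero =>
      intro s hs
      have : s = [] := by simpa [lev] using hs
      rw [this]; rfl
    | succ i ih =>
      intro s hs
      rw [lev, Finset.mem_biUnion] at hs
      obtain ⟨t, ht, hs⟩ := hs
      rw [Finset.mem_image] at hs
      obtain ⟨a, -, rfl⟩ := hs
      rw [List.length_cons, ih t ht]
  refine ⟨lev B, fun ξ s => zc (s.length * (lev B s.length).card ^ s.length) (f ξ) s, ?_, hlen, ?_, ?_⟩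
  · simp [lev]
  · intro i s hs ξ
    rw [lev, Finset.mem_biUnion]
    refine ⟨s, hs, ?_⟩
    rw [Finset.mem_image]
    refine ⟨_, ?_, rfl⟩
    rw [Set.Finite.mem_toFinset]
    refine ⟨f ξ, hf ξ, ?_⟩
    have h := hlen i s hs
    show zc (i * (lev B i).card ^ i) (f ξ) s = zc (s.length * (lev B s.length).card ^ s.length) (f ξ) s
    rw [h]
  · intro m Q hQ
    let g : ℕ → ℕ := fun n =>
      let p : List ℕ × ℕ := (Encodable.decode (α := List ℕ × ℕ) n).getD ([], 0)
      ((Encodable.decode (α := List ℕ) ((Q p.1).toList.getD p.2 0)).getD []).getD p.2 0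
    obtain ⟨ξ, N, hN⟩ := hneg g
    let ℓ : ℕ → ℕ := fun n => ((Encodable.decode (α := List ℕ × ℕ) n).getD ([], 0)).1.length
    refine ⟨ξ, (Finset.range N).sup ℓ + m + 1, fun i hi s hs hz => ?_⟩
    have hlens := hlen i s hs
    rw [← Finset.mem_toList] at hz
    obtain ⟨j, hj, hjz⟩ := List.mem_iff_getElem.1 hz
    have hw : j < s.length * (lev B s.length).card ^ s.length := by
      rw [hlens]
      rw [Finset.length_toList] at hj
      have h1 := hQ i s hs
      have hpos : 0 < (lev B i).card := Finset.card_pos.2 ⟨s, hs⟩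
      calc j < (Q s).card := hj
        _ ≤ m * (lev B i).card ^ m := h1
        _ ≤ i * (lev B i).card ^ i := by
          refine Nat.mul_le_mul (by omega) (Nat.pow_le_pow_right hpos (by omega))
    have hcode : N ≤ Encodable.encode (s, j) := by
      by_contra hcon
      push Not at hcon
      have h1 : ℓ (Encodable.encode (s, j)) ≤ (Finset.range N).sup ℓ :=
        Finset.le_sup (Finset.mem_range.2 hcon)
      have h2 : ℓ (Encodable.encode (s, j)) = s.length := by
        show ((Encodable.decode (α := List ℕ × ℕ) (Encodable.encode (s, j))).getD ([], 0)).1.length = _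
        rw [Encodable.encodek]; rfl
      omega
    apply hN _ hcode
    show _ = ((Encodable.decode (α := List ℕ) ((Q ((Encodable.decode (α := List ℕ × ℕ)
      (Encodable.encode (s, j))).getD ([], 0)).1).toList.getD ((Encodable.decode (α := List ℕ × ℕ)
      (Encodable.encode (s, j))).getD ([], 0)).2 0)).getD []).getD ((Encodable.decode (α := List ℕ × ℕ)
      (Encodable.encode (s, j))).getD ([], 0)).2 0
    rw [Encodable.encodek]
    show _ = ((Encodable.decode (α := List ℕ) ((Q s).toList.getD j 0)).getD []).getD j 0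
    rw [List.getD_eq_getElem?_getD (l := (Q s).toList), List.getElem?_eq_getElem hj, hjz]
    show _ = ((Encodable.decode (α := List ℕ) (zc _ (f ξ) s)).getD []).getD j 0
    rw [zc, Encodable.encodek]
    show _ = ((List.range _).map fun j => f ξ (Encodable.encode (s, j))).getD j 0
    rw [List.getD_eq_getElem?_getD, List.getElem?_map, List.getElem?_range hw]
    rfl

end Pool.Agent.Helper8.KP
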