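import Mathlib
import Pool.Agent.Helper8.KP.Base
import Pool.Agent.Helper8.KP.Inter
import Pool.Agent.Helper8.KP.Avoid

/-!
# Infinitely often equal reals from property K
-/

namespace Pool.Agent.Helper8.KP

open Set

/-- the nodes of the branch built along the sequence `x` -/
def nd {Ω : Type} (z : Ω → List ℕ → ℕ) (x : ℕ → Ω) : ℕ → List ℕ
  | 0 => []
  | i + 1 => z (x i) (nd z x i) :: nd z x i

theorem nd_eq_of_le {Ω : Type} {z : Ω → List ℕ → ℕ} {x y : ℕ → Ω} {i : ℕ} : ∀ {j : ℕ}, i ≤ j →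
    nd z x j = nd z y j → nd z x i = nd z y i := by
  intro j
  induction j with
  | zero =>
    intro h1 h2
    have : i = 0 := by omega
    rw [this]; exact h2
  | succ j ih =>
    intro h1 h2
    by_cases h : i = j + 1
    · rw [h]; exact h2
    · refine ih (by omega) ?_
      rw [nd, nd, List.cons.injEq] at h2
      exact h2.2

/-- the first difference of the two branches is at an even place -/
def Ev {Ω : Type} (z : Ω → List ℕ → ℕ) (x y : ℕ → Ω) : Prop :=
  ∃ i, i % 2 = 0 ∧ nd z x i = nd z y i ∧ nd z x (i + 1) ≠ nd z y (i + 1)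

theorem Ev.symm {Ω : Type} {z : Ω → List ℕ → ℕ} {x y : ℕ → Ω} (h : Ev z x y) : Ev z y x := by
  obtain ⟨i, h1, h2, h3⟩ := h
  exact ⟨i, h1, h2.symm, fun h => h3 h.symm⟩

theorem exists_level {Ω : Type} {z : Ω → List ℕ → ℕ} (x : Ω → ℕ → Ω) (F : Finset Ω)
    (hF : ∀ a ∈ F, ∀ b ∈ F, a ≠ b → Ev z (x a) (x b)) :
    ∃ N, ∀ a ∈ F, ∀ b ∈ F, a ≠ b → ∀ i, N ≤ i → nd z (x a) i ≠ nd z (x b) i := by
  classical
  have hd : ∀ a b : Ω, ∃ k, a ∈ F → b ∈ F → a ≠ b → nd z (x a) k ≠ nd z (x b) k := by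
    intro a b
    by_cases h : a ∈ F ∧ b ∈ F ∧ a ≠ b
    · obtain ⟨i, -, -, h3⟩ := hF a h.1 b h.2.1 h.2.2
      exact ⟨i + 1, fun _ _ _ => h3⟩
    · exact ⟨0, fun h1 h2 h3 => absurd ⟨h1, h2, h3⟩ h⟩
  choose d hd using hd
  refine ⟨F.sup (fun a => F.sup (fun b => d a b)), fun a ha b hb hab i hi h => ?_⟩
  have h1 : d a b ≤ F.sup (fun b => d a b) := Finset.le_sup (f := fun b => d a b) hb
  have h2 : F.sup (fun b => d a b) ≤ F.sup (fun a => F.sup (fun b => d a b)) :=
    Finset.le_sup (f := fun a => F.sup (fun b => d a b)) ha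
  exact hd a b ha hb hab (nd_eq_of_le (by omega) h)

/-- if every ccc poset has property K then for `ℵ₁` functions bounded by one function there is a function which
is equal to each of them infinitely often -/
theorem exists_io_eq (H : Star) {Ω : Type} [LinearOrder Ω] [Uncountable Ω]
    (hc : ∀ a : Ω, (Set.Iio a).Countable) (hcard : Cardinal.mk Ω ≤ Cardinal.continuum) (B : ℕ → ℕ)
    (f : Ω → ℕ → ℕ) (hf : ∀ ξ n, f ξ n ≤ B n) :
    ∃ g : ℕ → ℕ, ∀ ξ, ∀ N, ∃ n, N ≤ n ∧ f ξ n = g n := by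
  classical
  by_contra hcon
  push Not at hcon
  obtain ⟨T, z, hT0, hTl, hTs, hav⟩ := avoid B f hf hcon
  obtain ⟨x, hx⟩ := exists_inter hc hcard
  have hnd : ∀ δ i, nd z (x δ) i ∈ T i := by
    intro δ i
    induction i with
    | zero => exact hT0
    | succ i ih => exact hTs i _ ih _
  have hlen : ∀ δ i, (nd z (x δ) i).length = i := fun δ i => hTl i _ (hnd δ i)
  obtain ⟨X, hXc, hX⟩ := exists_clique H (fun a b => Ev z (x a) (x b)) (by
    intro 𝒜 m hA hne hm hdis hcl
    have hG : ∀ (i : ℕ) (P : Finset (List ℕ)), ∃ G : Finset Ω, G.card ≤ m ∧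
        ((∃ F ∈ 𝒜, F.image (fun a => nd z (x a) i) = P) →
          G ∈ 𝒜 ∧ G.image (fun a => nd z (x a) i) = P) := by
      intro i P
      by_cases h : ∃ F ∈ 𝒜, F.image (fun a => nd z (x a) i) = P
      · obtain ⟨F, hF, hFP⟩ := h
        exact ⟨F, (hm F hF).le, fun _ => ⟨hF, hFP⟩⟩
      · exact ⟨∅, by simp, fun h' => absurd h' h⟩
    choose G hGc hG using hG
    let Q : List ℕ → Finset ℕ := fun s => (Finset.powersetCard m (T s.length)).biUnion fun P =>
      (G s.length P).image fun a => z (x a s.length) (nd z (x a) s.length)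
    obtain ⟨ξ, N, hN⟩ := hav m Q (by
      intro i s hs
      have h1 : (Q s).card ≤ (Finset.powersetCard m (T s.length)).card * m := by
        refine Finset.card_biUnion_le_card_mul _ _ _ fun P _ => ?_
        exact Finset.card_image_le.trans (hGc _ _)
      rw [Finset.card_powersetCard, hTl i s hs, mul_comm] at h1
      exact h1.trans (Nat.mul_le_mul_left _ (Nat.choose_le_pow _ _)))
    obtain ⟨F, hF, hFξ⟩ : ∃ F ∈ 𝒜, ∀ δ ∈ F, ξ < δ := by
      by_contra hcon2
      push Not at hcon2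
      apply hA
      have h1 : 𝒜 ⊆ ⋃ a ∈ Set.Iic ξ, {F ∈ 𝒜 | a ∈ F} := by
        intro F hF
        obtain ⟨a, ha, haξ⟩ := hcon2 F hF
        simp only [Set.mem_iUnion]
        exact ⟨a, haξ, hF, ha⟩
      have h2 : (Set.Iic ξ).Countable := by
        rw [← Set.Iio_insert]
        exact (hc ξ).insert ξ
      refine (h2.biUnion fun a _ => ?_).mono h1
      refine Set.Subsingleton.countable ?_
      intro F hF G' hG'
      by_contra hFG
      exact Finset.disjoint_left.1 (hdis F hF.1 G' hG'.1 hFG) hF.2 hG'.2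
    obtain ⟨N1, hN1⟩ := exists_level x F (hcl F hF)
    obtain ⟨i, hi, hi2, hxi⟩ := hx F ξ hFξ 0 (by norm_num) (N + N1)
    set P := F.image (fun a => nd z (x a) i) with hP
    have hPm : P ∈ Finset.powersetCard m (T i) := by
      rw [Finset.mem_powersetCard]
      refine ⟨?_, ?_⟩
      · intro s hs
        rw [hP, Finset.mem_image] at hs
        obtain ⟨a, -, rfl⟩ := hs
        exact hnd a i
      · rw [hP, Finset.card_image_of_injOn, hm F hF]
        intro a ha b hb hab
        by_contra hne'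
        exact hN1 a ha b hb hne' i (by omega) hab
    obtain ⟨hGA, hGP⟩ := hG i P ⟨F, hF, rfl⟩
    have hval : ∀ δ ∈ F, ∀ ε ∈ G i P, z (x δ i) (nd z (x δ) i) ≠ z (x ε i) (nd z (x ε) i) := by
      intro δ hδ ε hε h
      have h1 := hN i (by omega) (nd z (x δ) i) (hnd δ i)
      apply h1
      rw [← hxi δ hδ, h]
      show _ ∈ (Finset.powersetCard m (T (nd z (x δ) i).length)).biUnion _
      rw [hlen δ i, Finset.mem_biUnion]
      exact ⟨P, hPm, Finset.mem_image.2 ⟨ε, hε, rfl⟩⟩
    have hEv : ∀ δ ∈ F, ∀ ε ∈ G i P, Ev z (x δ) (x ε) := by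
      intro δ hδ ε hε
      by_cases h : nd z (x δ) i = nd z (x ε) i
      · refine ⟨i, hi2, h, ?_⟩
        rw [nd, nd]
        intro h'
        rw [List.cons.injEq] at h'
        exact hval δ hδ ε hε h'.1
      · have h1 : nd z (x ε) i ∈ P := by
          rw [← hGP]
          exact Finset.mem_image.2 ⟨ε, hε, rfl⟩
        rw [hP, Finset.mem_image] at h1
        obtain ⟨δ', hδ', h1⟩ := h1
        have hne' : δ ≠ δ' := by
          rintro rfl
          exact h h1
        obtain ⟨k, hk1, hk2, hk3⟩ := hcl F hF δ hδ δ' hδ' hne'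
        have hki : k + 1 ≤ i := by
          by_contra hk
          push Not at hk
          exact hN1 δ hδ δ' hδ' hne' i (by omega) (nd_eq_of_le (by omega) hk2)
        refine ⟨k, hk1, ?_, ?_⟩
        · rw [hk2]
          exact nd_eq_of_le (by omega) h1
        · intro h2
          apply hk3
          rw [h2]
          exact (nd_eq_of_le hki h1).symm
    refine ⟨F, hF, G i P, hGA, ?_, fun a ha b hb => ⟨hEv a ha b hb, (hEv a ha b hb).symm⟩⟩
    intro hFG
    obtain ⟨δ, hδ⟩ := hne F hF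
    exact hval δ hδ δ (by rw [← hFG]; exact hδ) rfl)
  -- no uncountable clique
  have hp : ∀ s : List ℕ, ∃ v : ℕ, s.length % 2 = 1 → ∀ δ ∈ X, nd z (x δ) s.length = s →
      z (x δ s.length) s = v := by
    intro s
    by_cases h : ∃ δ ∈ X, nd z (x δ) s.length = s
    · obtain ⟨δ, hδ, hδs⟩ := h
      refine ⟨z (x δ s.length) s, fun hs ε hε hεs => ?_⟩
      by_cases hδε : ε = δ
      · rw [hδε]
      · obtain ⟨k, hk1, hk2, hk3⟩ := hX ε hε δ hδ hδε
        by_contra hcon2
        have h1 : ¬ k + 1 ≤ s.length := by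
          intro hk
          exact hk3 (nd_eq_of_le hk (hεs.trans hδs.symm))
        have h2 : k ≠ s.length := by
          intro hk
          omega
        have h3 : nd z (x ε) (s.length + 1) = nd z (x δ) (s.length + 1) :=
          nd_eq_of_le (by omega) hk2
        rw [nd, nd, hεs, hδs, List.cons.injEq] at h3
        exact hcon2 h3.1
    · exact ⟨0, fun _ δ hδ hδs => absurd ⟨δ, hδ, hδs⟩ h⟩
  choose v hv using hp
  obtain ⟨ξ, N, hN⟩ := hav 1 (fun s => {v s}) (by
    intro i s hs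
    have : 0 < (T i).card := Finset.card_pos.2 ⟨s, hs⟩
    rw [Finset.card_singleton, pow_one]
    omega)
  obtain ⟨δ, hδ, hδξ⟩ : ∃ δ ∈ X, ξ < δ := by
    by_contra hcon2
    push Not at hcon2
    apply hXc
    have h2 : (Set.Iic ξ).Countable := by
      rw [← Set.Iio_insert]
      exact (hc ξ).insert ξ
    exact h2.mono fun δ hδ => hcon2 δ hδ
  obtain ⟨i, hi, hi2, hxi⟩ := hx {δ} ξ (by simpa using hδξ) 1 (by norm_num) N
  have hxi' := hxi δ (by simp)
  apply hN i hi (nd z (x δ) i) (hnd δ i)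
  rw [Finset.mem_singleton, ← hxi']
  have h1 := hv (nd z (x δ) i) (by rw [hlen]; exact hi2) δ hδ (by rw [hlen])
  rw [hlen] at h1
  exact h1

end Pool.Agent.Helper8.KP
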