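import Mathlib

/-!
# From domination and infinitely often equal reals to the additivity of category
-/

namespace Pool.Agent.Helper8.KP

open Set

theorem bd_code (w c : ℕ) : ∃ B, ∀ g : ℕ → ℕ, (∀ k, g k ≤ c) → Encodable.encode ((List.range w).map g) ≤ B := by
  classical
  have h1 : (Set.Iic (fun _ : Fin w => c)).Finite := Set.finite_Iic _
  have h2 : {n | ∃ g : ℕ → ℕ, (∀ k, g k ≤ c) ∧ Encodable.encode ((List.range w).map g) = n}.Finite := by
    refine (h1.image (fun h : Fin w → ℕ => Encodable.encode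
      ((List.range w).map fun j => if hj : j < w then h ⟨j, hj⟩ else 0))).subset ?_
    rintro n ⟨g, hg, rfl⟩
    refine ⟨fun j => g j, fun j => hg _, ?_⟩
    show Encodable.encode _ = Encodable.encode _
    congr 1
    refine List.map_congr_left fun j hj => ?_
    rw [List.mem_range] at hj
    rw [dif_pos hj]
  obtain ⟨B, hB⟩ := h2.bddAbove
  exact ⟨B, fun g hg => hB ⟨g, hg, rfl⟩⟩

/-- iterated refinement -/
def itr (G : ℕ → ℕ → ℕ) (k m : ℕ) : ℕ → ℕ
  | 0 => k
  | r + 1 => G (m + r) (itr G k m r)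

theorem residual_iInter {Ω : Type} {X : Type*} [TopologicalSpace X] [SecondCountableTopology X]
    (dom : ∀ f : Ω → ℕ → ℕ, ∃ g : ℕ → ℕ, ∀ a, ∃ N, ∀ n, N ≤ n → f a n ≤ g n)
    (ioe : ∀ (B : ℕ → ℕ) (f : Ω → ℕ → ℕ), (∀ ξ n, f ξ n ≤ B n) →
      ∃ g : ℕ → ℕ, ∀ ξ, ∀ N, ∃ n, N ≤ n ∧ f ξ n = g n)
    (U : Ω → Set X) (hUo : ∀ ξ, IsOpen (U ξ)) (hUd : ∀ ξ, Dense (U ξ)) : (⋂ ξ, U ξ) ∈ residual X := by
  classical
  rcases isEmpty_or_nonempty X with hX | hX
  · have : (⋂ ξ, U ξ) = Set.univ := Set.eq_univ_of_forall fun x => (hX.false x).elim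
    rw [this]
    exact Filter.univ_mem
  obtain ⟨b, hbc, hbe, hb⟩ := TopologicalSpace.exists_countable_basis X
  have hbn : b.Nonempty := by
    obtain ⟨x⟩ := hX
    obtain ⟨v, hv, -⟩ := hb.exists_subset_of_mem_open (Set.mem_univ x) isOpen_univ
    exact ⟨v, hv⟩
  obtain ⟨u, hu⟩ := hbc.exists_eq_range hbn
  have huo : ∀ k, IsOpen (u k) := fun k => hb.isOpen (by rw [hu]; exact ⟨k, rfl⟩)
  have hun : ∀ k, (u k).Nonempty := by
    intro k
    rw [Set.nonempty_iff_ne_empty]
    intro h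
    apply hbe
    rw [hu]
    exact ⟨k, h⟩
  have hub : ∀ V : Set X, IsOpen V → V.Nonempty → ∃ k, u k ⊆ V := by
    rintro V hV ⟨x, hx⟩
    obtain ⟨v, hv, -, hvV⟩ := hb.exists_subset_of_mem_open hx hV
    rw [hu] at hv
    obtain ⟨k, rfl⟩ := hv
    exact ⟨k, hvV⟩
  have hφ : ∀ ξ k, ∃ k', u k' ⊆ u k ∩ U ξ := by
    intro ξ k
    exact hub _ ((huo k).inter (hUo ξ)) ((hUd ξ).inter_open_nonempty _ (huo k) (hun k))
  choose φ hφ using hφ
  obtain ⟨h, hh⟩ := dom φ
  let a : ℕ → ℕ := fun n => Nat.rec 0 (fun _ x => x + 1 + (Finset.range (x + 1)).sup h) n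
  have ha1 : ∀ n, a (n + 1) = a n + 1 + (Finset.range (a n + 1)).sup h := fun n => rfl
  have han : ∀ n, n ≤ a n := by
    intro n
    induction n with
    | zero => exact Nat.zero_le _
    | succ n ih => rw [ha1]; omega
  have haφ : ∀ ξ, ∃ N, ∀ n, N ≤ n → ∀ k ≤ a n, φ ξ k ≤ a (n + 1) := by
    intro ξ
    obtain ⟨N, hN⟩ := hh ξ
    refine ⟨(Finset.range N).sup (φ ξ), fun n hn k hk => ?_⟩
    rcases lt_or_ge k N with hkN | hkN
    · have h1 : φ ξ k ≤ (Finset.range N).sup (φ ξ) := Finset.le_sup (Finset.mem_range.2 hkN)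
      have h2 := han n
      have h3 := ha1 n
      omega
    · have h1 := hN k hkN
      have h2 : h k ≤ (Finset.range (a n + 1)).sup h := Finset.le_sup (Finset.mem_range.2 (by omega))
      have h3 := ha1 n
      omega
  have hB : ∀ n, ∃ B, ∀ g : ℕ → ℕ, (∀ k, g k ≤ a (n + 1)) →
      Encodable.encode ((List.range (a n + 1)).map g) ≤ B := fun n => bd_code _ _
  choose B hB using hB
  obtain ⟨gE, hgE⟩ := ioe B (fun ξ n => Encodable.encode ((List.range (a n + 1)).map
    fun k => min (φ ξ k) (a (n + 1)))) (fun ξ n => hB n _ (fun k => min_le_right _ _))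
  let L : ℕ → ℕ → ℕ := fun n k => ((Encodable.decode (α := List ℕ) (gE n)).getD []).getD k 0
  let G : ℕ → ℕ → ℕ := fun n k => if u (L n k) ⊆ u k ∧ L n k ≤ a (n + 1) then L n k else k
  have hGs : ∀ n k, u (G n k) ⊆ u k := by
    intro n k
    show u (if _ then _ else _) ⊆ _
    split_ifs with h1
    · exact h1.1
    · exact subset_rfl
  have hGa : ∀ n k, k ≤ a n → G n k ≤ a (n + 1) := by
    intro n k hk
    show (if _ then _ else _) ≤ _
    split_ifs with h1
    · exact h1.2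
    · have := ha1 n
      omega
  have hgood : ∀ ξ m, ∃ n, m ≤ n ∧ ∀ k ≤ a n, u (G n k) ⊆ U ξ := by
    intro ξ m
    obtain ⟨N, hN⟩ := haφ ξ
    obtain ⟨n, hn, hfn⟩ := hgE ξ (N + m)
    refine ⟨n, by omega, fun k hk => ?_⟩
    have h1 : L n k = φ ξ k := by
      show ((Encodable.decode (α := List ℕ) (gE n)).getD []).getD k 0 = _
      rw [← hfn, Encodable.encodek]
      show ((List.range (a n + 1)).map fun k => min (φ ξ k) (a (n + 1))).getD k 0 = _
      rw [List.getD_eq_getElem?_getD, List.getElem?_map, List.getElem?_range (by omega)]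
      show min (φ ξ k) (a (n + 1)) = _
      exact min_eq_left (hN n (by omega) k hk)
    have h2 : G n k = φ ξ k := by
      show (if _ then _ else _) = _
      rw [h1, if_pos]
      exact ⟨(hφ ξ k).trans Set.inter_subset_left, hN n (by omega) k hk⟩
    rw [h2]
    exact (hφ ξ k).trans Set.inter_subset_right
  choose nx hnx1 hnx2 using hgood
  obtain ⟨h2, hh2⟩ := dom nx
  let c : ℕ → ℕ := fun n => Nat.rec 0 (fun _ x => x + 1 + h2 x) n
  have hc1 : ∀ n, c (n + 1) = c n + 1 + h2 (c n) := fun n => rfl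
  have hcn : ∀ n, n ≤ c n := by
    intro n
    induction n with
    | zero => exact Nat.zero_le _
    | succ n ih => rw [hc1]; omega
  have hit1 : ∀ k m r, k ≤ a m → itr G k m r ≤ a (m + r) := by
    intro k m r hk
    induction r with
    | zero => exact hk
    | succ r ih => exact hGa _ _ ih
  have hit2 : ∀ k m r s, u (itr G k m (r + s)) ⊆ u (itr G k m r) := by
    intro k m r s
    induction s with
    | zero => exact subset_rfl
    | succ s ih => exact (hGs _ _).trans ih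
  let V : ℕ → Set X := fun m => ⋃ j : ℕ, ⋃ (_ : m ≤ j), ⋃ k : ℕ, ⋃ (_ : k ≤ a (c j)),
    u (itr G k (c j) (c (j + 1) - c j))
  have hVo : ∀ m, IsOpen (V m) := fun m =>
    isOpen_iUnion fun j => isOpen_iUnion fun _ => isOpen_iUnion fun k => isOpen_iUnion fun _ => huo _
  have hVd : ∀ m, Dense (V m) := by
    intro m
    rw [dense_iff_inter_open]
    intro W hW hWn
    obtain ⟨k, hk⟩ := hub W hW hWn
    obtain ⟨x, hx⟩ := hun (itr G k (c (m + k)) (c (m + k + 1) - c (m + k)))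
    refine ⟨x, hk ?_, ?_⟩
    · have h3 := hit2 k (c (m + k)) 0 (c (m + k + 1) - c (m + k))
      rw [Nat.zero_add] at h3
      exact h3 hx
    · have h3 := hcn (m + k)
      have h4 := han (c (m + k))
      simp only [V, Set.mem_iUnion]
      exact ⟨m + k, by omega, k, by omega, hx⟩
  have hVU : (⋂ m, V m) ⊆ ⋂ ξ, U ξ := by
    intro x hx
    rw [Set.mem_iInter] at hx ⊢
    intro ξ
    obtain ⟨N, hN⟩ := hh2 ξ
    have h3 := hx N
    simp only [V, Set.mem_iUnion] at h3
    obtain ⟨j, hj, k, hk, hxk⟩ := h3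
    have h4 := hcn j
    have h5 := hnx1 ξ (c j)
    have h6 := hN (c j) (by omega)
    have h7 := hc1 j
    obtain ⟨r, hr⟩ : ∃ r, nx ξ (c j) = c j + r := ⟨nx ξ (c j) - c j, by omega⟩
    obtain ⟨s, hs⟩ : ∃ s, c (j + 1) - c j = r + 1 + s := ⟨c (j + 1) - c j - (r + 1), by omega⟩
    rw [hs] at hxk
    have h8 := hit2 k (c j) (r + 1) s hxk
    have h9 : itr G k (c j) (r + 1) = G (c j + r) (itr G k (c j) r) := rfl
    rw [h9, ← hr] at h8
    exact hnx2 ξ (c j) _ (by rw [hr]; exact hit1 k (c j) r hk) h8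
  refine Filter.mem_of_superset ?_ hVU
  rw [countable_iInter_mem]
  exact fun m => residual_of_dense_open (hVo m) (hVd m)

end Pool.Agent.Helper8.KP
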