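import Mathlib
import Pool.Agent.Helper8.KP.Graph
import Pool.Agent.Helper8.KP.Dom
import Pool.Agent.Helper8.KP.Top

/-!
# Additivity of category from property K
-/

namespace Pool.Agent.Helper8.KP

open Set Cardinal

universe u v

theorem exists_omega1 : ∃ (Ω : Type) (_ : LinearOrder Ω), WellFoundedLT Ω ∧ Uncountable Ω ∧
    (∀ a : Ω, (Set.Iio a).Countable) ∧ Cardinal.mk Ω = Cardinal.aleph 1 := by
  refine ⟨(Cardinal.aleph 1).ord.ToType, inferInstance, inferInstance, ?_, ?_, Cardinal.mk_ord_toType _⟩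
  · rw [← Cardinal.aleph0_lt_mk_iff, Cardinal.mk_ord_toType]
    exact Cardinal.aleph0_lt_aleph_one
  · intro a
    rw [Cardinal.countable_iff_lt_aleph_one]
    exact Cardinal.mk_Iio_toType_ord_lt a

theorem isMeagre_iUnion (H : Star) {X : Type u} [TopologicalSpace X] [SecondCountableTopology X]
    {ι : Type v} (hι : Cardinal.mk ι ≤ Cardinal.aleph 1) (A : ι → Set X) (hA : ∀ i, IsMeagre (A i)) :
    IsMeagre (⋃ i, A i) := by
  classical
  rcases isEmpty_or_nonempty ι with hι0 | hι0
  · rw [Set.iUnion_of_empty]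
    exact IsMeagre.empty
  obtain ⟨Ω, i1, i2, i3, hc, hΩ⟩ := exists_omega1
  have hcard : Cardinal.mk Ω ≤ Cardinal.continuum := by
    rw [hΩ]; exact Cardinal.aleph_one_le_continuum
  have hV : ∀ i, ∃ V : ℕ → Set X, (∀ n, IsOpen (V n)) ∧ (∀ n, Dense (V n)) ∧ (⋂ n, V n) ⊆ (A i)ᶜ := by
    intro i
    obtain ⟨S, hSo, hSd, hSc, hS⟩ := mem_residual_iff.1 (hA i)
    obtain ⟨V, hV⟩ := (hSc.insert Set.univ).exists_eq_range (Set.insert_nonempty _ _)
    refine ⟨V, fun n => ?_, fun n => ?_, ?_⟩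
    · have h : V n ∈ insert Set.univ S := by rw [hV]; exact ⟨n, rfl⟩
      rcases h with h | h
      · rw [h]; exact isOpen_univ
      · exact hSo _ h
    · have h : V n ∈ insert Set.univ S := by rw [hV]; exact ⟨n, rfl⟩
      rcases h with h | h
      · rw [h]; exact dense_univ
      · exact hSd _ h
    · refine subset_trans ?_ hS
      intro x hx s hs
      have h : s ∈ insert Set.univ S := Or.inr hs
      rw [hV] at h
      obtain ⟨n, rfl⟩ := h
      exact Set.mem_iInter.1 hx n
  choose V hVo hVd hVA using hV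
  obtain ⟨e⟩ : Nonempty (ι × ℕ ↪ Ω) := by
    rw [← Cardinal.lift_mk_le', hΩ, Cardinal.mk_prod, Cardinal.mk_nat, Cardinal.lift_aleph0]
    rw [Cardinal.lift_mul, Cardinal.lift_aleph0, Cardinal.lift_aleph]
    refine (mul_le_mul' (Cardinal.lift_le.2 (Cardinal.lift_le.2 hι)) le_rfl).trans ?_
    rw [Cardinal.lift_aleph, Cardinal.lift_aleph, Cardinal.mul_aleph0_eq]
    · simp
    · simpa using Cardinal.aleph0_le_aleph _
  have hne : Nonempty (ι × ℕ) := inferInstance
  have key := residual_iInter (exists_dom H hc) (fun B f hf => exists_io_eq H hc hcard B f hf)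
    (fun ξ : Ω => V (Function.invFun e ξ).1 (Function.invFun e ξ).2) (fun ξ => hVo _ _) (fun ξ => hVd _ _)
  rw [IsMeagre]
  refine Filter.mem_of_superset key ?_
  intro x hx
  rw [Set.mem_compl_iff, Set.mem_iUnion]
  rintro ⟨i, hi⟩
  refine hVA i (Set.mem_iInter.2 fun n => ?_) hi
  have h := Set.mem_iInter.1 hx (e (i, n))
  rw [Function.leftInverse_invFun e.injective] at h
  exact h

end Pool.Agent.Helper8.KP
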