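import Mathlib
import Pool.Agent.Helper8.KP.LocB

/-!
# Localisation of bounded functions on a set of levels or on its complement
-/

namespace Pool.Agent.Helper8.KP

open Finset

/-- the width of the dichotomy -/
def wD (h : ℕ → ℕ) (i : ℕ) : ℕ := (∏ l ∈ Finset.range i, h l ^ l) ^ i * i

theorem loc_dich (H : Star) {Ω : Type} [LinearOrder Ω] [Uncountable Ω]
    (hc : ∀ a : Ω, (Set.Iio a).Countable) (hcard : Cardinal.mk Ω ≤ Cardinal.continuum) (h : ℕ → ℕ)
    (hh : ∀ i, 1 ≤ h i) (f : Ω → (i : ℕ) → Fin (h i)) (E : Set ℕ) :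
    ∃ S : (i : ℕ) → Finset (Fin (h i)), (∀ i, (S i).card ≤ wD h i) ∧
      ((∀ ξ, ∃ k, ∀ i, k ≤ i → i ∈ E → f ξ i ∈ S i) ∨ (∀ ξ, ∃ k, ∀ i, k ≤ i → i ∉ E → f ξ i ∈ S i)) := by
  classical
  obtain ⟨x, hx⟩ := exists_inter hc hcard
  let ρ : (i : ℕ) → (Fin i → Fin (h i)) → (Fin i → Fin (h i)) → Prop := fun i _ _ => i ∈ E
  let y : Ω → Rw h := fun δ i j => f (x δ j) i
  have hNpos : ∀ i, 1 ≤ ∏ l ∈ Finset.range i, h l ^ l := fun i =>
    Finset.prod_pos fun l _ => Nat.pow_pos (hh l)
  by_cases hccc : ∀ (𝒜 : Set (Finset Ω)) (m : ℕ), ¬ 𝒜.Countable → (∀ F ∈ 𝒜, F.Nonempty) →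
      (∀ F ∈ 𝒜, F.card = m) → (∀ F ∈ 𝒜, ∀ G ∈ 𝒜, F ≠ G → Disjoint F G) →
      (∀ F ∈ 𝒜, ∀ a ∈ F, ∀ b ∈ F, a ≠ b → Rl ρ (y a) (y b)) →
      ∃ F ∈ 𝒜, ∃ G ∈ 𝒜, F ≠ G ∧ ∀ a ∈ F, ∀ b ∈ G, Rl ρ (y a) (y b) ∧ Rl ρ (y b) (y a)
  · obtain ⟨X, hXc, hX⟩ := exists_clique H (fun a b => Rl ρ (y a) (y b)) hccc
    let A : (i : ℕ) → Nd h i → Fin i → Finset (Fin (h i)) := fun i t j =>
      Finset.univ.filter fun a => ∃ δ ∈ X, ndr (y δ) i = t ∧ y δ i j = a
    refine ⟨fun i => if i ∉ E then Finset.univ.biUnion fun t : Nd h i =>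
      Finset.univ.biUnion fun j : Fin i => A i t j else ∅, ?_, Or.inr ?_⟩
    · intro i
      by_cases hiE : i ∈ E
      · simp only [hiE, not_true_eq_false, if_false, Finset.card_empty]
        exact Nat.zero_le _
      simp only [hiE, not_false_eq_true, if_true]
      have hA : ∀ t j, (A i t j).card ≤ 1 := by
        intro t j
        rw [Finset.card_le_one]
        intro a ha a' ha'
        simp only [A, Finset.mem_filter, Finset.mem_univ, true_and] at ha ha'
        obtain ⟨δ, h1, h2, h3⟩ := ha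
        obtain ⟨δ', h1', h2', h3'⟩ := ha'
        by_contra hne
        have h4 : δ ≠ δ' := by
          intro h
          apply hne
          rw [← h3, ← h3', h]
        refine hiE (Rl.of_eq (hX _ h1 _ h1' h4) (h2.trans h2'.symm) ?_)
        intro h
        apply hne
        rw [← h3, ← h3', h]
      have h1 : (Finset.univ.biUnion fun t : Nd h i => Finset.univ.biUnion fun j : Fin i => A i t j).card ≤
          (Finset.univ : Finset (Nd h i)).card * ((Finset.univ : Finset (Fin i)).card * 1) := by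
        refine Finset.card_biUnion_le_card_mul _ _ _ fun t _ => ?_
        exact Finset.card_biUnion_le_card_mul _ _ _ fun j _ => hA t j
      refine h1.trans ?_
      rw [Finset.card_univ, card_Nd, Finset.card_univ, Fintype.card_fin, wD, mul_one]
      rcases Nat.eq_zero_or_pos i with hi | hi
      · subst hi
        simp
      · refine Nat.mul_le_mul_right _ ?_
        exact Nat.le_self_pow (by omega) _
    · intro ξ
      obtain ⟨δ, hδ, hξ⟩ : ∃ δ ∈ X, ξ < δ := by
        by_contra hcon
        push Not at hcon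
        apply hXc
        refine Set.Countable.mono (s₂ := Set.Iic ξ) (fun δ hδ => hcon δ hδ) ?_
        rw [← Set.Iio_insert]
        exact (hc ξ).insert ξ
      obtain ⟨j, -, -, hj⟩ := hx {δ} ξ (by
        intro δ' hδ'
        rw [Finset.mem_singleton] at hδ'
        rw [hδ']; exact hξ) 0 (by norm_num) 0
      have hj' : x δ j = ξ := hj δ (Finset.mem_singleton_self _)
      refine ⟨j + 1, fun i hi hiE => ?_⟩
      simp only [hiE, not_false_eq_true, if_true]
      rw [Finset.mem_biUnion]
      refine ⟨ndr (y δ) i, Finset.mem_univ _, ?_⟩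
      rw [Finset.mem_biUnion]
      refine ⟨⟨j, by omega⟩, Finset.mem_univ _, ?_⟩
      simp only [A, Finset.mem_filter, Finset.mem_univ, true_and]
      refine ⟨δ, hδ, rfl, ?_⟩
      show f (x δ j) i = f ξ i
      rw [hj']
  · push Not at hccc
    obtain ⟨𝒜, m, hA, hne, hm, hdis, hcl, hbad⟩ := hccc
    let A : (i : ℕ) → Finset (Nd h i) → Fin i → Finset (Fin (h i)) := fun i P j =>
      Finset.univ.filter fun a => ∃ F ∈ 𝒜, F.image (fun δ => ndr (y δ) i) = P ∧ ∀ δ ∈ F, y δ i j = a
    refine ⟨fun i => if i ∈ E ∧ m ≤ i then (Finset.powersetCard m (Finset.univ : Finset (Nd h i))).biUnion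
      fun P => Finset.univ.biUnion fun j : Fin i => A i P j else ∅, ?_, Or.inl ?_⟩
    · intro i
      by_cases hmi : i ∈ E ∧ m ≤ i
      swap
      · simp only [if_neg hmi, Finset.card_empty]
        exact Nat.zero_le _
      simp only [if_pos hmi]
      have hAc : ∀ P ∈ Finset.powersetCard m (Finset.univ : Finset (Nd h i)), ∀ j,
          (A i P j).card ≤ 1 := by
        intro P hP j
        rw [Finset.mem_powersetCard] at hP
        rw [Finset.card_le_one]
        intro a ha a' ha'
        simp only [A, Finset.mem_filter, Finset.mem_univ, true_and] at ha ha'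
        obtain ⟨F, hF, hFP, hFa⟩ := ha
        obtain ⟨G, hG, hGP, hGa⟩ := ha'
        by_contra hne'
        have hR : ∀ γ ∈ F, ∀ ε ∈ G, Rl ρ (y γ) (y ε) := by
          intro γ hγ ε hε
          by_cases hγε : ndr (y γ) i = ndr (y ε) i
          · refine ⟨i, hγε, ?_, hmi.1⟩
            intro h
            apply hne'
            rw [← hFa γ hγ, ← hGa ε hε, h]
          · have hεP : ndr (y ε) i ∈ F.image (fun δ => ndr (y δ) i) := by
              rw [hFP, ← hGP]
              exact Finset.mem_image_of_mem (fun δ => ndr (y δ) i) hε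
            rw [Finset.mem_image] at hεP
            obtain ⟨δ, hδ, hδε⟩ := hεP
            have h3 : γ ≠ δ := by
              intro h
              apply hγε
              rw [h]
              exact hδε
            exact Rl.transfer (hcl _ hF γ hγ _ hδ h3) hγε hδε
        obtain ⟨γ, hγ, ε, hε, h1⟩ := hbad F hF G hG (by
          intro h
          obtain ⟨γ, hγ⟩ := hne _ hF
          apply hne'
          rw [← hFa γ hγ, ← hGa γ (by rw [← h]; exact hγ)])
        exact h1 (hR γ hγ ε hε) (Rl.symm (fun _ _ _ h => h) (hR γ hγ ε hε))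
      have h1 : ((Finset.powersetCard m (Finset.univ : Finset (Nd h i))).biUnion
          fun P => Finset.univ.biUnion fun j : Fin i => A i P j).card ≤
          (Finset.powersetCard m (Finset.univ : Finset (Nd h i))).card *
            ((Finset.univ : Finset (Fin i)).card * 1) := by
        refine Finset.card_biUnion_le_card_mul _ _ _ fun P hP => ?_
        exact Finset.card_biUnion_le_card_mul _ _ _ fun j _ => hAc P hP j
      refine h1.trans ?_
      rw [Finset.card_powersetCard, Finset.card_univ, card_Nd, Finset.card_univ, Fintype.card_fin, wD,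
        mul_one]
      refine Nat.mul_le_mul_right _ ?_
      exact (Nat.choose_le_pow _ _).trans (Nat.pow_le_pow_right (hNpos i) hmi.2)
    · intro ξ
      obtain ⟨F, hF, hFξ⟩ := exists_above hc hA hdis ξ
      obtain ⟨N, hN⟩ := exists_sep y F (hcl F hF)
      obtain ⟨j, -, -, hj⟩ := hx F ξ hFξ 0 (by norm_num) 0
      refine ⟨N + m + j + 1, fun i hi hiE => ?_⟩
      simp only [if_pos (show i ∈ E ∧ m ≤ i from ⟨hiE, by omega⟩)]
      rw [Finset.mem_biUnion]
      refine ⟨F.image (fun δ => ndr (y δ) i), ?_, ?_⟩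
      · rw [Finset.mem_powersetCard]
        refine ⟨Finset.subset_univ _, ?_⟩
        rw [Finset.card_image_of_injOn, hm F hF]
        intro a ha b hb hab
        exact hN i (by omega) a ha b hb hab
      · rw [Finset.mem_biUnion]
        refine ⟨⟨j, by omega⟩, Finset.mem_univ _, ?_⟩
        simp only [A, Finset.mem_filter, Finset.mem_univ, true_and]
        refine ⟨F, hF, rfl, fun δ hδ => ?_⟩
        show f (x δ j) i = f ξ i
        rw [hj δ hδ]

end Pool.Agent.Helper8.KP
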