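import Mathlib
import Pool.Agent.Helper8.KP.Dich
import Pool.Agent.Helper8.KP.Main

/-!
# Localisation of arbitrary functions on half of the blocks
-/

namespace Pool.Agent.Helper8.KP

open Finset

/-- the number of codes below `b` -/
def hB (B : ℕ → ℕ) (b : ℕ) : ℕ := ∏ n ∈ Finset.range b, (B n + 1)

theorem hB_pos (B : ℕ → ℕ) (b : ℕ) : 1 ≤ hB B b := Finset.prod_pos fun _ _ => Nat.succ_pos _

theorem hB_mono (B : ℕ → ℕ) : Monotone (hB B) := by
  intro b b' hbb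
  exact Finset.prod_le_prod_of_subset_of_one_le' (Finset.range_mono hbb) fun n _ _ => by omega

/-- the width which is needed after `b` -/
def zB (B : ℕ → ℕ) (k b : ℕ) : ℕ := ((hB B b ^ (k + 1)) ^ (k + 1)) ^ (k + 1) * (k + 1)

/-- the intervals -/
def abq (B g θ : ℕ → ℕ) : ℕ → ℕ × ℕ
  | 0 => (0, max 1 (g 0))
  | k + 1 =>
    (max (abq B g θ k).2 (θ (zB B k (abq B g θ k).2)),
      max (max (abq B g θ k).2 (θ (zB B k (abq B g θ k).2)) + 1)
        (g (max (abq B g θ k).2 (θ (zB B k (abq B g θ k).2)))))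

theorem abq_spec (B g θ : ℕ → ℕ) (k : ℕ) : g (abq B g θ k).1 ≤ (abq B g θ k).2 ∧
    (abq B g θ k).1 < (abq B g θ k).2 ∧ (abq B g θ k).2 ≤ (abq B g θ (k + 1)).1 ∧
    θ (zB B k (abq B g θ k).2) ≤ (abq B g θ (k + 1)).1 := by
  refine ⟨?_, ?_, le_max_left _ _, le_max_right _ _⟩
  · cases k with
    | zero => exact le_max_right _ _
    | succ k => exact le_max_right _ _
  · cases k with
    | zero => exact lt_of_lt_of_le Nat.zero_lt_one (le_max_left 1 (g 0))
    | succ k => exact lt_of_lt_of_le (Nat.lt_succ_self _) (le_max_left _ _)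

theorem dich_main (H : Star) {Ω : Type} [LinearOrder Ω] [WellFoundedLT Ω] [Uncountable Ω]
    (hc : ∀ a : Ω, (Set.Iio a).Countable) (hcard : Cardinal.mk Ω ≤ Cardinal.continuum)
    (f : Ω → ℕ → ℕ) (w : ℕ → ℕ) (hw : Filter.Tendsto w Filter.atTop Filter.atTop) (g : ℕ → ℕ) :
    ∃ a b : ℕ → ℕ, (∀ k, g (a k) ≤ b k ∧ a k < b k ∧ b k ≤ a (k + 1)) ∧
      ∀ E : Set ℕ, ∃ S : ℕ → Finset ℕ, (∀ n, (S n).card ≤ w n) ∧
        ((∀ ξ, ∃ K, ∀ k, K ≤ k → k ∈ E → ∀ n, a k ≤ n → n < b k → f ξ n ∈ S n) ∨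
          (∀ ξ, ∃ K, ∀ k, K ≤ k → k ∉ E → ∀ n, a k ≤ n → n < b k → f ξ n ∈ S n)) := by
  classical
  obtain ⟨B, hB'⟩ := exists_dom H hc f
  have hθ : ∀ z, ∃ N, ∀ n, N ≤ n → z ≤ w n := fun z =>
    Filter.eventually_atTop.1 (hw.eventually_ge_atTop z)
  choose θ hθ using hθ
  set a : ℕ → ℕ := fun k => (abq B g θ k).1 with ha
  set b : ℕ → ℕ := fun k => (abq B g θ k).2 with hb
  have hab : ∀ k, g (a k) ≤ b k ∧ a k < b k ∧ b k ≤ a (k + 1) ∧ θ (zB B k (b k)) ≤ a (k + 1) :=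
    fun k => abq_spec B g θ k
  have hamono : StrictMono a := strictMono_nat_of_lt_succ fun k =>
    lt_of_lt_of_le (hab k).2.1 (hab k).2.2.1
  have hbmono : StrictMono b := strictMono_nat_of_lt_succ fun k =>
    lt_of_le_of_lt (hab k).2.2.1 (hab (k + 1)).2.1
  refine ⟨a, b, fun k => ⟨(hab k).1, (hab k).2.1, (hab k).2.2.1⟩, fun E => ?_⟩
  let h : ℕ → ℕ := fun k => hB B (b k)
  have hcd : ∀ k, Fintype.card ((n : Fin (b k)) → Fin (B n + 1)) = h k := by
    intro k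
    rw [Fintype.card_pi]
    simp only [Fintype.card_fin]
    exact Fin.prod_univ_eq_prod_range (fun n => B n + 1) (b k)
  let e : (k : ℕ) → ((n : Fin (b k)) → Fin (B n + 1)) ≃ Fin (h k) := fun k =>
    Fintype.equivFinOfCardEq (hcd k)
  let F : Ω → (k : ℕ) → Fin (h k) := fun ξ k =>
    e k fun n => ⟨min (f ξ n) (B n), Nat.lt_succ_of_le (min_le_right _ _)⟩
  obtain ⟨S, hS, hSf⟩ := loc_dich H hc hcard h (fun k => hB_pos B _) F E
  have hw' : ∀ k n, a k ≤ n → wD h k ≤ w n := by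
    intro k n hn
    cases k with
    | zero => simp [wD]
    | succ k =>
      refine le_trans ?_ (hθ _ n ((hab k).2.2.2.trans hn))
      rw [wD, zB]
      refine Nat.mul_le_mul_right _ (Nat.pow_le_pow_left ?_ _)
      calc ∏ l ∈ Finset.range (k + 1), h l ^ l ≤ ∏ _l ∈ Finset.range (k + 1), hB B (b k) ^ (k + 1) := by
            refine Finset.prod_le_prod' fun l hl => ?_
            rw [Finset.mem_range] at hl
            have h1 : h l ≤ hB B (b k) := hB_mono B (hbmono.monotone (by omega))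
            exact (Nat.pow_le_pow_left h1 l).trans (Nat.pow_le_pow_right (hB_pos B _) (by omega))
        _ = _ := by rw [Finset.prod_const, Finset.card_range]
  have hκ : ∀ n, ∃ k, ∀ k', a k' ≤ n → n < b k' → k' = k := by
    intro n
    by_cases hn : ∃ k, a k ≤ n ∧ n < b k
    · obtain ⟨k, hk1, hk2⟩ := hn
      refine ⟨k, fun k' h1 h2 => ?_⟩
      rcases lt_trichotomy k' k with h3 | h3 | h3
      · have h4 : b k' ≤ a k := (hab k').2.2.1.trans (hamono.monotone (by omega))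
        omega
      · exact h3
      · have h4 : b k ≤ a k' := (hab k).2.2.1.trans (hamono.monotone (by omega))
        omega
    · exact ⟨0, fun k' h1 h2 => absurd ⟨k', h1, h2⟩ hn⟩
  choose κ hκ using hκ
  let S' : ℕ → Finset ℕ := fun n => if a (κ n) ≤ n then
    (S (κ n)).image fun s => if hn : n < b (κ n) then ((e (κ n)).symm s ⟨n, hn⟩).val else 0 else ∅
  have key : ∀ ξ N, (∀ n, N ≤ n → f ξ n ≤ B n) → ∀ k, N ≤ k → F ξ k ∈ S k →
      ∀ n, a k ≤ n → n < b k → f ξ n ∈ S' n := by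
    intro ξ N hN k hk hFk n han hnb
    have h1 := hκ n k han hnb
    subst h1
    simp only [S', if_pos han]
    rw [Finset.mem_image]
    refine ⟨F ξ (κ n), hFk, ?_⟩
    rw [dif_pos hnb]
    simp only [F, Equiv.symm_apply_apply]
    have h2 : κ n ≤ a (κ n) := hamono.le_apply
    exact min_eq_left (hN n (by omega))
  refine ⟨S', fun n => ?_, ?_⟩
  · by_cases hn : a (κ n) ≤ n
    · simp only [S', if_pos hn]
      exact Finset.card_image_le.trans ((hS _).trans (hw' _ n hn))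
    · simp only [S', if_neg hn, Finset.card_empty]
      exact Nat.zero_le _
  · rcases hSf with h1 | h1
    · refine Or.inl fun ξ => ?_
      obtain ⟨K, hK⟩ := h1 ξ
      obtain ⟨N, hN⟩ := hB' ξ
      exact ⟨K + N, fun k hk hkE => key ξ N hN k (by omega) (hK k (by omega) hkE)⟩
    · refine Or.inr fun ξ => ?_
      obtain ⟨K, hK⟩ := h1 ξ
      obtain ⟨N, hN⟩ := hB' ξ
      exact ⟨K + N, fun k hk hkE => key ξ N hN k (by omega) (hK k (by omega) hkE)⟩

universe u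

theorem dich_all (H : Star) {ι : Type u} (hι : Cardinal.mk ι ≤ Cardinal.aleph 1)
    (f : ι → ℕ → ℕ) (w : ℕ → ℕ) (hw : Filter.Tendsto w Filter.atTop Filter.atTop) (g : ℕ → ℕ) :
    ∃ a b : ℕ → ℕ, (∀ k, g (a k) ≤ b k ∧ a k < b k ∧ b k ≤ a (k + 1)) ∧
      ∀ E : Set ℕ, ∃ S : ℕ → Finset ℕ, (∀ n, (S n).card ≤ w n) ∧
        ((∀ i, ∃ K, ∀ k, K ≤ k → k ∈ E → ∀ n, a k ≤ n → n < b k → f i n ∈ S n) ∨
          (∀ i, ∃ K, ∀ k, K ≤ k → k ∉ E → ∀ n, a k ≤ n → n < b k → f i n ∈ S n)) := by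
  classical
  obtain ⟨Ω, i1, i2, i3, hc, hΩ⟩ := exists_omega1
  have hcard : Cardinal.mk Ω ≤ Cardinal.continuum := by
    rw [hΩ]; exact Cardinal.aleph_one_le_continuum
  obtain ⟨e⟩ : Nonempty (ι ↪ Ω) := by
    rw [← Cardinal.lift_mk_le', hΩ, Cardinal.lift_aleph]
    refine (Cardinal.lift_le.2 hι).trans ?_
    rw [Cardinal.lift_aleph]
    simp
  let f' : Ω → ℕ → ℕ := fun ξ => if hξ : ∃ i, e i = ξ then f hξ.choose else fun _ => 0
  have hf' : ∀ i, f' (e i) = f i := by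
    intro i
    have hξ : ∃ i', e i' = e i := ⟨i, rfl⟩
    simp only [f', dif_pos hξ]
    rw [e.injective hξ.choose_spec]
  obtain ⟨a, b, hab, hE⟩ := dich_main H hc hcard f' w hw g
  refine ⟨a, b, hab, fun E => ?_⟩
  obtain ⟨S, hS, hSf⟩ := hE E
  refine ⟨S, hS, ?_⟩
  rcases hSf with h1 | h1
  · refine Or.inl fun i => ?_
    have := h1 (e i)
    rw [hf'] at this
    exact this
  · refine Or.inr fun i => ?_
    have := h1 (e i)
    rw [hf'] at this
    exact this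

end Pool.Agent.Helper8.KP
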