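import Mathlib
import Pool.Agent.Helper8.KP.LocB

/-!
# Localisation of bounded functions, iteration
-/

namespace Pool.Agent.Helper8.KP

open Finset

/-- the coefficients of the iteration -/
def cC (h : ℕ → ℕ) (i : ℕ) : ℕ :=
  (∏ l ∈ Finset.range i, (h l + 1) ^ l) ^ i * i * (2 ^ (i + 1) * (i ^ 2 + 2 * i + 2))

/-- the effect of one step on a large width -/
def sg (x : ℕ) : ℕ := (Nat.size x + 1) ^ 2

theorem sg_mono : Monotone sg := fun _ _ hxy =>
  Nat.pow_le_pow_left (Nat.add_le_add_right (Nat.size_le_size hxy) 1) 2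

theorem wB_le (h w : ℕ → ℕ) (hw : ∀ i, w i ≤ h i) (i : ℕ) :
    wB (fun i => w i + 1) (fun i => Nat.size (w i)) i ≤ cC h i * (Nat.size (w i) + 1) := by
  rw [wB, cC]
  have h1 : ∏ l ∈ Finset.range i, (w l + 1) ^ l ≤ ∏ l ∈ Finset.range i, (h l + 1) ^ l :=
    Finset.prod_le_prod' fun l _ => Nat.pow_le_pow_left (Nat.add_le_add_right (hw l) 1) l
  have h2 : Nat.size (w i) * i ^ 2 + 2 * i + 2 ≤ (i ^ 2 + 2 * i + 2) * (Nat.size (w i) + 1) := by
    nlinarith [Nat.zero_le (Nat.size (w i)), Nat.zero_le i, Nat.zero_le (i ^ 2),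
      Nat.zero_le (2 * i * Nat.size (w i))]
  calc (∏ l ∈ Finset.range i, (w l + 1) ^ l) ^ i * i * (2 ^ (i + 1) * (Nat.size (w i) * i ^ 2 + 2 * i + 2))
      ≤ (∏ l ∈ Finset.range i, (h l + 1) ^ l) ^ i * i *
        (2 ^ (i + 1) * ((i ^ 2 + 2 * i + 2) * (Nat.size (w i) + 1))) :=
      Nat.mul_le_mul (Nat.mul_le_mul_right _ (Nat.pow_le_pow_left h1 i)) (Nat.mul_le_mul_left _ h2)
    _ = _ := by ring

theorem loc_iter (H : Star) {Ω : Type} [LinearOrder Ω] [Uncountable Ω]
    (hc : ∀ a : Ω, (Set.Iio a).Countable) (hcard : Cardinal.mk Ω ≤ Cardinal.continuum) (h : ℕ → ℕ)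
    (f : Ω → (i : ℕ) → Fin (h i)) (r : ℕ) :
    ∃ S : (i : ℕ) → Finset (Fin (h i)), (∀ i, (S i).card ≤ max (cC h i ^ 2) (sg^[r] (h i))) ∧
      ∀ ξ, ∃ k, ∀ i, k ≤ i → f ξ i ∈ S i := by
  classical
  induction r with
  | zero =>
    refine ⟨fun _ => Finset.univ, fun i => ?_, fun ξ => ⟨0, fun i _ => Finset.mem_univ _⟩⟩
    rw [Finset.card_univ, Fintype.card_fin]
    exact le_max_right _ _
  | succ r ih =>
    obtain ⟨S, hS, hSf⟩ := ih
    let f' : Ω → (i : ℕ) → Fin ((S i).card + 1) := fun ξ i =>
      if hx : f ξ i ∈ S i then ((S i).equivFin ⟨f ξ i, hx⟩).castSucc else Fin.last _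
    obtain ⟨S', hS', hSf'⟩ := loc_step H hc hcard (fun i => (S i).card + 1)
      (fun i => Nat.size (S i).card) (fun i => by omega) (fun i => Nat.lt_size_self _) f'
    refine ⟨fun i => ((S i).attach.filter fun a => ((S i).equivFin a).castSucc ∈ S' i).image Subtype.val,
      fun i => ?_, fun ξ => ?_⟩
    · have h1 : (((S i).attach.filter fun a => ((S i).equivFin a).castSucc ∈ S' i).image
          Subtype.val).card ≤ (S i).card := by
        refine Finset.card_image_le.trans ((Finset.card_filter_le _ _).trans ?_)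
        rw [Finset.card_attach]
      have h2 : (((S i).attach.filter fun a => ((S i).equivFin a).castSucc ∈ S' i).image
          Subtype.val).card ≤ cC h i * (Nat.size (S i).card + 1) := by
        refine Finset.card_image_le.trans (le_trans ?_ ((hS' i).trans (wB_le h (fun i => (S i).card) ?_ i)))
        · refine Finset.card_le_card_of_injOn (fun a => ((S i).equivFin a).castSucc) ?_ ?_
          · intro a ha
            rw [Finset.mem_coe, Finset.mem_filter] at ha
            exact ha.2
          · intro a _ b _ hab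
            exact (S i).equivFin.injective (Fin.castSucc_injective _ hab)
        · intro i
          refine (Finset.card_le_univ _).trans ?_
          rw [Fintype.card_fin]
      rw [Function.iterate_succ_apply']
      rcases le_or_gt (S i).card (cC h i ^ 2) with h3 | h3
      · exact h1.trans (h3.trans (le_max_left _ _))
      · have h4 : (S i).card ≤ sg^[r] (h i) := by
          rcases le_max_iff.1 (hS i) with h5 | h5
          · omega
          · exact h5
        rcases le_or_gt (Nat.size (S i).card + 1) (cC h i) with h5 | h5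
        · refine h2.trans (le_trans ?_ (le_max_left _ _))
          rw [sq]
          exact Nat.mul_le_mul_left _ h5
        · refine h2.trans (le_trans ?_ (le_max_right _ _))
          refine le_trans ?_ (sg_mono h4)
          rw [sg, sq]
          exact Nat.mul_le_mul_right _ h5.le
    · obtain ⟨k, hk⟩ := hSf ξ
      obtain ⟨k', hk'⟩ := hSf' ξ
      refine ⟨k + k', fun i hi => ?_⟩
      have h1 := hk i (by omega)
      have h2 := hk' i (by omega)
      rw [Finset.mem_image]
      refine ⟨⟨f ξ i, h1⟩, ?_, rfl⟩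
      rw [Finset.mem_filter]
      refine ⟨Finset.mem_attach _ _, ?_⟩
      simp only [f', dif_pos h1] at h2
      exact h2

end Pool.Agent.Helper8.KP
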