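import Mathlib
import Pool.Agent.Helper8.KP.LocIter

/-!
# Growth estimates
-/

namespace Pool.Agent.Helper8.KP

open Finset

/-- iterated exponentials -/
def T (c n : ℕ) : ℕ := (fun x : ℕ => 2 ^ x)^[c] n

theorem T_zero (n : ℕ) : T 0 n = n := rfl

theorem T_succ (c n : ℕ) : T (c + 1) n = 2 ^ T c n := Function.iterate_succ_apply' _ _ _

theorem T_add (a b n : ℕ) : T (a + b) n = T a (T b n) := Function.iterate_add_apply _ _ _ _

theorem T_mono (c : ℕ) : Monotone (T c) := by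
  have h : Monotone (fun x : ℕ => 2 ^ x) := fun a b hab => Nat.pow_le_pow_right (by norm_num) hab
  exact h.iterate c

theorem le_T (c n : ℕ) : n ≤ T c n := by
  induction c with
  | zero => exact le_rfl
  | succ c ih =>
    rw [T_succ]
    exact ih.trans Nat.lt_two_pow_self.le

theorem T_le_T {a b : ℕ} (hab : a ≤ b) (n : ℕ) : T a n ≤ T b n := by
  obtain ⟨k, rfl⟩ := Nat.exists_eq_add_of_le' hab
  rw [T_add]
  exact le_T _ _

theorem two_T (i y : ℕ) (hy : 1 ≤ y) : 2 * T i y + 2 ≤ T i (4 * y) := by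
  induction i with
  | zero => rw [T_zero, T_zero]; omega
  | succ i ih =>
    rw [T_succ, T_succ]
    have h1 : 2 ^ (2 * T i y + 2) ≤ 2 ^ T i (4 * y) := Nat.pow_le_pow_right (by norm_num) ih
    have h2 : 2 ^ (2 * T i y + 2) = 4 * (2 ^ T i y * 2 ^ T i y) := by
      rw [pow_add, two_mul, pow_add]; ring
    have h3 : 1 ≤ 2 ^ T i y := Nat.one_le_two_pow
    nlinarith

theorem sg_two_pow (z : ℕ) : sg (2 ^ z) = (z + 2) ^ 2 := by
  rw [sg, Nat.size_pow]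

theorem sg_T (j y : ℕ) (hy : 1 ≤ y) : sg (T (j + 2) y) ≤ T (j + 1) (4 * y) := by
  rw [T_succ, sg_two_pow, T_succ, T_succ]
  have h1 : 2 ^ (2 * T j y + 2) ≤ 2 ^ T j (4 * y) := Nat.pow_le_pow_right (by norm_num) (two_T j y hy)
  refine le_trans ?_ h1
  have h2 : 2 ^ (2 * T j y + 2) = (2 ^ T j y * 2) ^ 2 := by
    rw [pow_add, two_mul, pow_add]; ring
  rw [h2]
  refine Nat.pow_le_pow_left ?_ 2
  have h3 : 1 ≤ T j y := hy.trans (le_T _ _)
  have h4 : 2 ^ 1 ≤ 2 ^ T j y := Nat.pow_le_pow_right (by norm_num) h3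
  omega

theorem sg_iter (j : ℕ) : ∀ y : ℕ, 1 ≤ y → sg^[j] (T (j + 1) y) ≤ 2 ^ (4 ^ j * y) := by
  induction j with
  | zero =>
    intro y _
    rw [Function.iterate_zero, id_eq, T_succ, T_zero, pow_zero, one_mul]
  | succ j ih =>
    intro y hy
    rw [Function.iterate_succ_apply]
    refine ((sg_mono.iterate j) (sg_T j y hy)).trans ((ih (4 * y) (by omega)).trans ?_)
    refine le_of_eq ?_
    congr 1
    rw [pow_succ]; ring

theorem size_bound (s : ℕ) (hs : 13 ≤ s) : (4 * s + 1) ^ 2 ≤ 2 ^ (s - 1) := by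
  induction s, hs using Nat.le_induction with
  | base => norm_num
  | succ s hs ih =>
    have h1 : s + 1 - 1 = (s - 1) + 1 := by omega
    rw [h1, pow_succ 2 (s - 1)]
    have h2 : (4 * (s + 1) + 1) ^ 2 ≤ 2 * (4 * s + 1) ^ 2 := by nlinarith
    omega

theorem sg_final (j v : ℕ) (hv : 4096 ≤ v) (hv' : 4 ^ (j + 1) ≤ v) : sg^[j + 2] (T (j + 1) v) ≤ v := by
  rw [Function.iterate_succ_apply', Function.iterate_succ_apply']
  have h1 : sg (sg^[j] (T (j + 1) v)) ≤ v ^ 4 := by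
    refine (sg_mono (sg_iter j v (by omega))).trans ?_
    rw [sg_two_pow]
    have h2 : 4 ^ j * v + 2 ≤ v ^ 2 := by
      rw [pow_succ] at hv'
      have h3 : 1 ≤ 4 ^ j := Nat.one_le_pow _ _ (by norm_num)
      nlinarith
    calc (4 ^ j * v + 2) ^ 2 ≤ (v ^ 2) ^ 2 := Nat.pow_le_pow_left h2 2
      _ = v ^ 4 := by ring
  refine (sg_mono h1).trans ?_
  have h2 : Nat.size (v ^ 4) ≤ 4 * Nat.size v := by
    rw [Nat.size_le]
    have h3 : v < 2 ^ Nat.size v := Nat.lt_size_self v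
    calc v ^ 4 < (2 ^ Nat.size v) ^ 4 := Nat.pow_lt_pow_left h3 (by norm_num)
      _ = _ := by rw [← pow_mul]; congr 1; ring
  have h3 : 13 ≤ Nat.size v := by
    have : 12 < Nat.size v := Nat.lt_size.2 (by norm_num; exact hv)
    omega
  have h4 : 2 ^ (Nat.size v - 1) ≤ v := Nat.lt_size.1 (by omega)
  rw [sg]
  calc (Nat.size (v ^ 4) + 1) ^ 2 ≤ (4 * Nat.size v + 1) ^ 2 :=
      Nat.pow_le_pow_left (Nat.add_le_add_right h2 1) 2
    _ ≤ 2 ^ (Nat.size v - 1) := size_bound _ h3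
    _ ≤ v := h4

theorem pow_five_le (n : ℕ) (hn : 32 ≤ n) : n ^ 5 ≤ 2 ^ n := by
  induction n, hn using Nat.le_induction with
  | base => norm_num
  | succ n hn ih =>
    rw [pow_succ 2 n]
    have h1 : (n + 1) ^ 5 ≤ 2 * n ^ 5 := by
      obtain ⟨k, rfl⟩ : ∃ k, n = k + 32 := ⟨n - 32, by omega⟩
      ring_nf
      nlinarith [Nat.zero_le k, Nat.zero_le (k ^ 2), Nat.zero_le (k ^ 3), Nat.zero_le (k ^ 4),
        Nat.zero_le (k ^ 5)]
    omega

theorem quad_le (n : ℕ) (hn : 32 ≤ n) : n ^ 2 + 2 * n + 2 ≤ 2 ^ n := by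
  refine le_trans ?_ (pow_five_le n hn)
  have h1 : n ^ 2 + 2 * n + 2 ≤ n ^ 2 * n := by nlinarith
  have h2 : n ^ 2 * n * 1 ≤ n ^ 2 * n * (n * n) := Nat.mul_le_mul_left _ (by nlinarith)
  calc n ^ 2 + 2 * n + 2 ≤ n ^ 2 * n := h1
    _ = n ^ 2 * n * 1 := by ring
    _ ≤ n ^ 2 * n * (n * n) := h2
    _ = n ^ 5 := by ring

theorem cC_sq_le (h : ℕ → ℕ) (k Y : ℕ) (hY : 32 ≤ Y) (hk : k ≤ Y) (hh : ∀ l < k, h l + 1 ≤ Y) :
    cC h k ^ 2 ≤ 2 ^ 2 ^ Y := by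
  have h1 : ∏ l ∈ Finset.range k, (h l + 1) ^ l ≤ Y ^ (Y * Y) := by
    calc ∏ l ∈ Finset.range k, (h l + 1) ^ l ≤ ∏ _l ∈ Finset.range k, Y ^ Y := by
          refine Finset.prod_le_prod' fun l hl => ?_
          rw [Finset.mem_range] at hl
          exact (Nat.pow_le_pow_left (hh l hl) l).trans (Nat.pow_le_pow_right (by omega) (by omega))
      _ = (Y ^ Y) ^ k := by rw [Finset.prod_const, Finset.card_range]
      _ ≤ (Y ^ Y) ^ Y := Nat.pow_le_pow_right (Nat.pow_pos (by omega)) hk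
      _ = _ := by rw [← pow_mul]
  have hY2 : Y ≤ 2 ^ Y := Nat.lt_two_pow_self.le
  have h2 : (∏ l ∈ Finset.range k, (h l + 1) ^ l) ^ k ≤ 2 ^ (Y ^ 4) := by
    calc (∏ l ∈ Finset.range k, (h l + 1) ^ l) ^ k ≤ (Y ^ (Y * Y)) ^ k := Nat.pow_le_pow_left h1 k
      _ ≤ (Y ^ (Y * Y)) ^ Y := Nat.pow_le_pow_right (Nat.pow_pos (by omega)) hk
      _ ≤ ((2 ^ Y) ^ (Y * Y)) ^ Y := Nat.pow_le_pow_left (Nat.pow_le_pow_left hY2 _) _
      _ = _ := by rw [← pow_mul, ← pow_mul]; congr 1; ring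
  have h3 : cC h k ≤ 2 ^ (Y ^ 4 + 3 * Y + 1) := by
    rw [cC]
    calc (∏ l ∈ Finset.range k, (h l + 1) ^ l) ^ k * k * (2 ^ (k + 1) * (k ^ 2 + 2 * k + 2))
        ≤ 2 ^ (Y ^ 4) * 2 ^ Y * (2 ^ (Y + 1) * 2 ^ Y) := by
          refine Nat.mul_le_mul (Nat.mul_le_mul h2 (hk.trans hY2)) (Nat.mul_le_mul ?_ ?_)
          · exact Nat.pow_le_pow_right (by norm_num) (by omega)
          · refine le_trans ?_ (quad_le Y hY)
            have h4 : k ^ 2 ≤ Y ^ 2 := Nat.pow_le_pow_left hk 2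
            omega
      _ = _ := by rw [← pow_add, ← pow_add, ← pow_add]; congr 1; ring
  calc cC h k ^ 2 ≤ (2 ^ (Y ^ 4 + 3 * Y + 1)) ^ 2 := Nat.pow_le_pow_left h3 2
    _ = 2 ^ (2 * Y ^ 4 + 6 * Y + 2) := by rw [← pow_mul]; congr 1; ring
    _ ≤ 2 ^ 2 ^ Y := by
      refine Nat.pow_le_pow_right (by norm_num) (le_trans ?_ (pow_five_le Y hY))
      have h5 : Y ≤ Y ^ 4 := Nat.le_self_pow (by norm_num) Y
      have h6 : Y ^ 5 = Y ^ 4 * Y := pow_succ _ _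
      rw [h6]
      nlinarith

theorem pack_le (c b : ℕ) (hb : 32 ≤ b) : (T c b + 1) ^ b ≤ T (c + 2) b := by
  have h1 : b ≤ T c b := le_T _ _
  have h2 : T c b + 1 ≤ 2 ^ T c b := Nat.lt_two_pow_self
  have h3 : T (c + 2) b = 2 ^ 2 ^ T c b := by rw [T_succ, T_succ]
  rw [h3]
  calc (T c b + 1) ^ b ≤ (2 ^ T c b) ^ b := Nat.pow_le_pow_left h2 b
    _ = 2 ^ (T c b * b) := by rw [← pow_mul]
    _ ≤ 2 ^ 2 ^ T c b := by
      refine Nat.pow_le_pow_right (by norm_num) (le_trans ?_ (quad_le (T c b) (hb.trans h1)))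
      nlinarith

end Pool.Agent.Helper8.KP
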