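import Mathlib
import Pool.Agent.Helper8.KP.Growth
import Pool.Agent.Helper8.KP.Main

/-!
# Localisation of functions bounded by an iterated exponential
-/

namespace Pool.Agent.Helper8.KP

open Finset

/-- the block ends -/
def ub (s v₀ : ℕ) : ℕ → ℕ
  | 0 => v₀
  | i + 1 => T s (ub s v₀ i)

theorem ub_succ (s v₀ i : ℕ) : ub s v₀ (i + 1) = T s (ub s v₀ i) := rfl

theorem ub_lt {s v₀ : ℕ} (hs : 1 ≤ s) (i : ℕ) : ub s v₀ i < ub s v₀ (i + 1) := by
  rw [ub_succ]
  obtain ⟨s, rfl⟩ := Nat.exists_eq_add_of_le' hs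
  rw [T_succ]
  exact (le_T s _).trans_lt Nat.lt_two_pow_self

theorem ub_strictMono {s v₀ : ℕ} (hs : 1 ≤ s) : StrictMono (ub s v₀) := strictMono_nat_of_lt_succ (ub_lt hs)

theorem le_ub {s v₀ : ℕ} (hs : 1 ≤ s) (i : ℕ) : v₀ + i ≤ ub s v₀ i := by
  induction i with
  | zero => exact le_rfl
  | succ i ih =>
    have := ub_lt (v₀ := v₀) hs i
    omega

/-- one system of blocks -/
theorem loc_block (H : Star) {Ω : Type} [LinearOrder Ω] [Uncountable Ω]
    (hc : ∀ a : Ω, (Set.Iio a).Countable) (hcard : Cardinal.mk Ω ≤ Cardinal.continuum) (c d v₀ : ℕ)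
    (hv₀ : 4096 ≤ v₀) (hv₀' : 4 ^ (2 * c + 7 + 2 * d) ≤ v₀)
    (f : Ω → ℕ → ℕ) (hf : ∀ ξ n, f ξ n ≤ T c n) (p : ℕ) :
    ∃ S : ℕ → ℕ → Finset ℕ, (∀ k n, (S k n).card ≤ T (c + 5) (ub (c + 5 + d) v₀ (2 * k + p))) ∧
      ∀ ξ, ∃ K, ∀ k, K ≤ k → ∀ n, n < ub (c + 5 + d) v₀ (2 * k + p + 2) → f ξ n ∈ S k n := by
  classical
  set u := ub (c + 5 + d) v₀ with hu
  have hs : 1 ≤ c + 5 + d := by omega
  have humono : StrictMono u := ub_strictMono hs
  have hu32 : ∀ i, 4096 ≤ u i := fun i => hv₀.trans ((Nat.le_add_right _ _).trans (le_ub hs i))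
  let b : ℕ → ℕ := fun k => u (2 * k + p + 2)
  let h : ℕ → ℕ := fun k => (T c (b k) + 1) ^ b k
  have hcd : ∀ k, Fintype.card (Fin (b k) → Fin (T c (b k) + 1)) = h k := fun k => by simp [h]
  let e : (k : ℕ) → (Fin (b k) → Fin (T c (b k) + 1)) ≃ Fin (h k) := fun k => Fintype.equivFinOfCardEq (hcd k)
  let F : Ω → (k : ℕ) → Fin (h k) := fun ξ k =>
    e k fun n => ⟨f ξ n, Nat.lt_succ_of_le ((hf ξ n).trans (T_mono c n.2.le))⟩
  obtain ⟨S, hS, hSf⟩ := loc_iter H hc hcard h F (2 * c + 6 + 2 * d + 2)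
  refine ⟨fun k n => (S k).image fun g => if hn : n < b k then ((e k).symm g ⟨n, hn⟩).val else 0,
    fun k n => ?_, fun ξ => ?_⟩
  · refine Finset.card_image_le.trans ((hS k).trans (max_le ?_ ?_))
    · have h1 : cC h k ^ 2 ≤ 2 ^ 2 ^ T (c + 3) (u (2 * k + p)) := by
        refine cC_sq_le h k _ ?_ ?_ ?_
        · have h2 := hu32 (2 * k + p)
          have h3 := le_T (c + 3) (u (2 * k + p))
          omega
        · have h2 := le_ub (v₀ := v₀) hs (2 * k + p)
          have h3 := le_T (c + 3) (u (2 * k + p))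
          have h4 : v₀ + (2 * k + p) ≤ u (2 * k + p) := h2
          omega
        · intro l hl
          have h2 : h l ≤ T (c + 2) (b l) := pack_le c (b l) (le_trans (by norm_num) (hu32 (2 * l + p + 2)))
          have h3 : b l ≤ u (2 * k + p) := humono.monotone (by omega)
          have h4 : T (c + 3) (u (2 * k + p)) = 2 ^ T (c + 2) (u (2 * k + p)) := T_succ _ _
          rw [h4]
          have h5 : T (c + 2) (u (2 * k + p)) < 2 ^ T (c + 2) (u (2 * k + p)) := Nat.lt_two_pow_self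
          have h6 := T_mono (c + 2) h3
          omega
      have h7 : T (c + 5) (u (2 * k + p)) = 2 ^ 2 ^ T (c + 3) (u (2 * k + p)) := by
        rw [show c + 5 = c + 3 + 1 + 1 by omega, T_succ (c + 3 + 1), T_succ (c + 3)]
      rw [h7]
      exact h1
    · set v := T (c + 5) (u (2 * k + p)) with hv
      have hv1 : v₀ ≤ v := by
        have h2 := le_ub (v₀ := v₀) hs (2 * k + p)
        have h3 := le_T (c + 5) (u (2 * k + p))
        have h4 : v₀ + (2 * k + p) ≤ u (2 * k + p) := h2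
        omega
      have h1 : h k ≤ T (2 * c + 6 + 2 * d + 1) v := by
        have h2 : h k ≤ T (c + 2) (b k) := pack_le c (b k) (le_trans (by norm_num) (hu32 (2 * k + p + 2)))
        refine h2.trans (le_of_eq ?_)
        have h3 : b k = T (c + 5 + d) (T (c + 5 + d) (u (2 * k + p))) := rfl
        have h4 : T (c + 5 + d) (u (2 * k + p)) = T d v := by
          rw [hv, ← T_add]
          congr 1
          omega
        rw [h3, h4, ← T_add, ← T_add]
        congr 1
        omega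
      refine ((sg_mono.iterate _) h1).trans (sg_final (2 * c + 6 + 2 * d) v (hv₀.trans hv1) ?_)
      refine le_trans (le_of_eq ?_) (hv₀'.trans hv1)
      congr 1
      omega
  · obtain ⟨K, hK⟩ := hSf ξ
    refine ⟨K, fun k hk n hn => ?_⟩
    rw [Finset.mem_image]
    refine ⟨F ξ k, hK k hk, ?_⟩
    have hn' : n < b k := hn
    rw [dif_pos hn']
    simp only [F, Equiv.symm_apply_apply]

theorem log_T (d v : ℕ) : (Nat.log 2)^[d] (T d v) = v := by
  induction d with
  | zero => rfl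
  | succ d ih =>
    rw [Function.iterate_succ_apply, T_succ, Nat.log_pow (by norm_num)]
    exact ih

theorem log_iter_mono (d : ℕ) : Monotone ((Nat.log 2)^[d]) :=
  (Nat.log_monotone (b := 2)).iterate d

theorem loc_main (H : Star) {Ω : Type} [LinearOrder Ω] [Uncountable Ω]
    (hc : ∀ a : Ω, (Set.Iio a).Countable) (hcard : Cardinal.mk Ω ≤ Cardinal.continuum) (c d : ℕ)
    (f : Ω → ℕ → ℕ) (hf : ∀ ξ n, f ξ n ≤ T c n) :
    ∃ S : ℕ → Finset ℕ, (∀ n, (S n).card ≤ (Nat.log 2)^[d] n) ∧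
      ∀ ξ, ∃ N, ∀ n, N ≤ n → f ξ n ∈ S n := by
  classical
  obtain ⟨v₀, hv₀, hv₀'⟩ : ∃ v₀, 4096 ≤ v₀ ∧ 4 ^ (2 * c + 7 + 2 * d) ≤ v₀ :=
    ⟨max 4096 (4 ^ (2 * c + 7 + 2 * d)), le_max_left _ _, le_max_right _ _⟩
  have h0 := loc_block H hc hcard c d v₀ hv₀ hv₀' f hf
  choose S hS hSf using h0
  set u := ub (c + 5 + d) v₀ with hu
  have hs : 1 ≤ c + 5 + d := by omega
  have humono : StrictMono u := ub_strictMono hs
  have hi : ∀ n, ∃ i, u 1 ≤ n → u (i + 1) ≤ n ∧ n < u (i + 2) := by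
    intro n
    by_cases hn : u 1 ≤ n
    · have hex : ∃ i, n < u (i + 2) := by
        refine ⟨n, ?_⟩
        have h2 : v₀ + (n + 2) ≤ u (n + 2) := le_ub hs (n + 2)
        omega
      refine ⟨Nat.find hex, fun _ => ⟨?_, Nat.find_spec hex⟩⟩
      rcases Nat.eq_zero_or_pos (Nat.find hex) with h0 | h0
      · rw [h0]; exact hn
      · obtain ⟨m, hm⟩ : ∃ m, Nat.find hex = m + 1 := ⟨Nat.find hex - 1, by omega⟩
        have h2 := Nat.find_min hex (m := m) (by omega)
        rw [hm]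
        exact not_lt.1 h2
    · exact ⟨0, fun h => absurd h hn⟩
  choose i hi using hi
  refine ⟨fun n => if u 1 ≤ n then S (i n % 2) (i n / 2) n else ∅, fun n => ?_, fun ξ => ?_⟩
  · by_cases hn : u 1 ≤ n
    · simp only [if_pos hn]
      have h1 := hi n hn
      refine (hS (i n % 2) (i n / 2) n).trans ?_
      have h2 : 2 * (i n / 2) + i n % 2 = i n := Nat.div_add_mod _ _
      rw [h2]
      have h3 : u (i n + 1) = T d (T (c + 5) (u (i n))) := by
        rw [← T_add, hu, ub_succ]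
        congr 1
        omega
      have h4 := log_iter_mono d h1.1
      rw [h3, log_T] at h4
      exact h4
    · simp only [if_neg hn, Finset.card_empty]
      exact Nat.zero_le _
  · obtain ⟨K0, hK0⟩ := hSf 0 ξ
    obtain ⟨K1, hK1⟩ := hSf 1 ξ
    refine ⟨u (2 * (K0 + K1) + 3), fun n hn => ?_⟩
    have hn1 : u 1 ≤ n := (humono.monotone (by omega)).trans hn
    simp only [if_pos hn1]
    have h1 := hi n hn1
    have h2 : 2 * (K0 + K1) + 3 < i n + 2 := humono.lt_iff_lt.1 (hn.trans_lt h1.2)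
    have h3 : 2 * (i n / 2) + i n % 2 = i n := Nat.div_add_mod _ _
    have h5 : n < u (2 * (i n / 2) + i n % 2 + 2) := by rw [h3]; exact h1.2
    rcases Nat.mod_two_eq_zero_or_one (i n) with h4 | h4
    · rw [h4]
      rw [h4] at h5 h3
      exact hK0 (i n / 2) (by omega) n h5
    · rw [h4]
      rw [h4] at h5 h3
      exact hK1 (i n / 2) (by omega) n h5

universe u

/-- if every ccc poset has property K then at most `ℵ₁` functions which are bounded by an iterated exponential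
are localised by a slalom whose width is bounded by an iterated logarithm -/
theorem loc_elementary (H : Star) {ι : Type u} (hι : Cardinal.mk ι ≤ Cardinal.aleph 1) (c d : ℕ)
    (f : ι → ℕ → ℕ) (hf : ∀ i n, f i n ≤ (fun x : ℕ => 2 ^ x)^[c] n) :
    ∃ S : ℕ → Finset ℕ, (∀ n, (S n).card ≤ (Nat.log 2)^[d] n) ∧
      ∀ i, ∃ N, ∀ n, N ≤ n → f i n ∈ S n := by
  classical
  rcases isEmpty_or_nonempty ι with hι0 | hι0
  · exact ⟨fun _ => ∅, fun n => by simp, fun i => isEmptyElim i⟩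
  obtain ⟨Ω, i1, i2, i3, hc, hΩ⟩ := exists_omega1
  have hcard : Cardinal.mk Ω ≤ Cardinal.continuum := by
    rw [hΩ]; exact Cardinal.aleph_one_le_continuum
  obtain ⟨e⟩ : Nonempty (ι ↪ Ω) := by
    rw [← Cardinal.lift_mk_le', hΩ, Cardinal.lift_aleph]
    refine (Cardinal.lift_le.2 hι).trans ?_
    rw [Cardinal.lift_aleph]
    simp
  obtain ⟨S, hS, hSf⟩ := loc_main H hc hcard c d (fun ξ => f (Function.invFun e ξ)) (fun ξ n => hf _ n)
  refine ⟨S, hS, fun i => ?_⟩
  obtain ⟨N, hN⟩ := hSf (e i)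
  refine ⟨N, fun n hn => ?_⟩
  have h := hN n hn
  rw [Function.leftInverse_invFun e.injective] at h
  exact h

end Pool.Agent.Helper8.KP
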