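import Mathlib
import Pool.Agent.Helper8.KP.Main

/-!
# Martin's axiom for countable posets from property K
-/

namespace Pool.Agent.Helper8.KP

open Set Cardinal

/-- the descending sequence which follows `x` whenever possible -/
noncomputable def desc {P : Type} [PartialOrder P] (p₀ : P) (x : ℕ → P) : ℕ → P
  | 0 => p₀
  | n + 1 => by
      classical
      exact if x n ≤ desc p₀ x n then x n else desc p₀ x n

theorem desc_succ_le {P : Type} [PartialOrder P] (p₀ : P) (x : ℕ → P) (n : ℕ) :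
    desc p₀ x (n + 1) ≤ desc p₀ x n := by
  rw [desc]
  split_ifs with h
  · exact h
  · exact le_rfl

theorem desc_anti {P : Type} [PartialOrder P] (p₀ : P) (x : ℕ → P) : Antitone (desc p₀ x) :=
  antitone_nat_of_succ_le fun n => desc_succ_le p₀ x n

theorem desc_congr {P : Type} [PartialOrder P] (p₀ : P) {x y : ℕ → P} : ∀ {n : ℕ},
    (∀ k < n, x k = y k) → desc p₀ x n = desc p₀ y n := by
  intro n
  induction n with
  | zero => intro _; rfl
  | succ n ih =>
    intro h
    rw [desc, desc, ih fun k hk => h k (by omega), h n (by omega)]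

/-- Martin's axiom for countable posets and `ℵ₁` dense sets -/
theorem ma_countable (H : Star) (P : Type) [PartialOrder P] [Countable P] [Nonempty P] {ι : Type}
    (hι : Cardinal.mk ι ≤ Cardinal.aleph 1) (D : ι → Set P) (hD : ∀ i p, ∃ d ∈ D i, d ≤ p) :
    ∃ G : Set P, G.Nonempty ∧ (∀ p ∈ G, ∀ q, p ≤ q → q ∈ G) ∧
      (∀ p ∈ G, ∀ q ∈ G, ∃ r ∈ G, r ≤ p ∧ r ≤ q) ∧ ∀ i, (G ∩ D i).Nonempty := by
  classical
  letI : TopologicalSpace P := ⊥
  haveI : DiscreteTopology P := ⟨rfl⟩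
  obtain ⟨p₀⟩ := ‹Nonempty P›
  have hcont : ∀ n, Continuous (fun x : ℕ → P => desc p₀ x n) := by
    intro n
    induction n with
    | zero => exact continuous_const
    | succ n ih =>
      have h1 : Continuous (fun q : P × P => if q.1 ≤ q.2 then q.1 else q.2) := continuous_of_discreteTopology
      exact h1.comp ((continuous_apply n).prodMk ih)
  have hopen : ∀ i, IsOpen {x : ℕ → P | ∃ n, desc p₀ x n ∈ D i} := by
    intro i
    have : {x : ℕ → P | ∃ n, desc p₀ x n ∈ D i} = ⋃ n, (fun x : ℕ → P => desc p₀ x n) ⁻¹' (D i) := by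
      ext x; simp
    rw [this]
    exact isOpen_iUnion fun n => (isOpen_discrete (D i)).preimage (hcont n)
  have hdense : ∀ i, Dense {x : ℕ → P | ∃ n, desc p₀ x n ∈ D i} := by
    intro i
    rw [dense_iff_inter_open]
    rintro W hW ⟨x, hx⟩
    rw [isOpen_pi_iff] at hW
    obtain ⟨I, w, hw1, hw2⟩ := hW x hx
    obtain ⟨n, hn⟩ : ∃ n, ∀ k ∈ I, k < n := ⟨I.sup id + 1, fun k hk => by
      have : id k ≤ I.sup id := Finset.le_sup hk
      simp only [id] at this
      omega⟩
    obtain ⟨d, hd, hdx⟩ := hD i (desc p₀ x n)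
    let y : ℕ → P := fun k => if k < n then x k else d
    have hyx : ∀ k < n, y k = x k := fun k hk => if_pos hk
    have hyn : y n = d := if_neg (lt_irrefl n)
    refine ⟨y, hw2 ?_, n + 1, ?_⟩
    · intro k hk
      rw [hyx k (hn k hk)]
      exact (hw1 k hk).2
    · rw [desc, desc_congr p₀ hyx, hyn, if_pos hdx]
      exact hd
  have hm : IsMeagre (⋃ i, {x : ℕ → P | ∃ n, desc p₀ x n ∈ D i}ᶜ) := by
    refine isMeagre_iUnion H hι _ fun i => ?_
    rw [IsMeagre, compl_compl]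
    exact residual_of_dense_open (hopen i) (hdense i)
  obtain ⟨x, hx⟩ := (dense_of_mem_residual hm).nonempty
  have hx' : ∀ i, ∃ n, desc p₀ x n ∈ D i := by
    intro i
    by_contra hcon
    exact hx (Set.mem_iUnion.2 ⟨i, hcon⟩)
  refine ⟨{p | ∃ n, desc p₀ x n ≤ p}, ⟨p₀, 0, le_rfl⟩, ?_, ?_, ?_⟩
  · rintro p ⟨n, hn⟩ q hpq
    exact ⟨n, hn.trans hpq⟩
  · rintro p ⟨n, hn⟩ q ⟨m, hm⟩
    exact ⟨desc p₀ x (n + m), ⟨n + m, le_rfl⟩, (desc_anti p₀ x (by omega)).trans hn,
      (desc_anti p₀ x (by omega)).trans hm⟩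
  · intro i
    obtain ⟨n, hn⟩ := hx' i
    exact ⟨desc p₀ x n, ⟨n, le_rfl⟩, hn⟩

end Pool.Agent.Helper8.KP
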